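import Mathlib

/-! Coprime actions of abelian groups on abelian `p`-groups: a vector with trivial stabilizer. -/

set_option autoImplicit false

namespace Pool.Agent.KCK

/-- The norm of `v` with respect to the subgroup `C`. -/
noncomputable def nrm {D E : Type} [CommGroup D] [Group E] [Fintype E] [MulDistribMulAction E D]
    (C : Subgroup E) (v : D) : D :=
  haveI : Fintype C := Fintype.ofFinite C
  ∏ c : C, (c : E) • v

private theorem Rv_mul {D E : Type} [CommGroup D] [Group E] [Fintype E]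
    [MulDistribMulAction E D] (C : Subgroup E) (v w : D) : nrm C (v * w) = nrm C v * nrm C w := by
  unfold nrm
  rw [← Finset.prod_mul_distrib]
  exact Finset.prod_congr rfl fun c _ => smul_mul' _ _ _

private theorem Rv_fix {D E : Type} [CommGroup D] [Group E] [Fintype E]
    [MulDistribMulAction E D] (C : Subgroup E) (v : D) (c : E) (hc : c ∈ C) :
    c • nrm C v = nrm C v := by
  unfold nrm
  let _ : Fintype C := Fintype.ofFinite C
  rw [Finset.smul_prod']
  refine Fintype.prod_equiv (Equiv.mulLeft (⟨c, hc⟩ : C)) _ _ fun x => ?_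
  rw [smul_smul]
  rfl

private theorem Rv_pow {D E : Type} [CommGroup D] [Group E] [Fintype E]
    [MulDistribMulAction E D] (C : Subgroup E) (v : D) (h : ∀ c ∈ C, c • v = v) :
    nrm C v = v ^ Nat.card C := by
  unfold nrm
  let _ : Fintype C := Fintype.ofFinite C
  have h1 : ∀ c : C, (c : E) • v = v := fun c => h c c.2
  rw [Finset.prod_congr rfl fun c _ => h1 c, Finset.prod_const, Finset.card_univ,
    Nat.card_eq_fintype_card]

private theorem Rv_com {D E : Type} [CommGroup D] [Group E] [Fintype E]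
    [MulDistribMulAction E D] (C : Subgroup E) (a : E) (ha : ∀ c ∈ C, a * c = c * a) (v : D) :
    nrm C (a • v) = a • nrm C v := by
  unfold nrm
  rw [Finset.smul_prod']
  refine Finset.prod_congr rfl fun c _ => ?_
  rw [smul_smul, smul_smul, ha c c.2]

/-- An element of a `p`-group whose power with exponent prime to `p` is trivial. -/
private theorem Rv_cop {D : Type} [Group D] {p : ℕ} (hp : p.Prime) (hD : IsPGroup p D) (n : ℕ)
    (hn : ¬ p ∣ n) (v : D) (hv : v ^ n = 1) : v = 1 := by
  obtain ⟨k, hk⟩ := hD v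
  have h1 := orderOf_dvd_of_pow_eq_one hv
  have h2 := orderOf_dvd_of_pow_eq_one hk
  have h3 : Nat.Coprime n (p ^ k) := (Nat.Coprime.pow_left k ((hp.coprime_iff_not_dvd).2 hn)).symm
  have h4 := Nat.dvd_gcd h1 h2
  rw [h3] at h4
  exact orderOf_eq_one_iff.1 (Nat.dvd_one.1 h4)

/-- **A vector with trivial stabilizer.** `A` is an abelian group of order prime to `p` which acts
faithfully on the abelian `p`-group `D`. -/
theorem reg_vec {D E : Type} [CommGroup D] [Finite D] [Group E] [Finite E]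
    [MulDistribMulAction E D] (p : ℕ) (hp : p.Prime) (hD : IsPGroup p D) (hE : ¬ p ∣ Nat.card E)
    (A : Subgroup E) (hA : ∀ a ∈ A, ∀ b ∈ A, a * b = b * a)
    (hf : ∀ a ∈ A, (∀ v : D, a • v = v) → a = 1) :
    ∃ u : D, ∀ a ∈ A, a • u = u → a = 1 := by
  classical
  let _ : Fintype E := Fintype.ofFinite E
  let _ : Fintype D := Fintype.ofFinite D
  -- the stabilizers in `A`
  let S : D → Subgroup E := fun u => A ⊓ MulAction.stabilizer E u
  have hS : ∀ u a, a ∈ S u ↔ a ∈ A ∧ a • u = u := fun u a => Iff.rfl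
  obtain ⟨u, -, hu⟩ := Finset.exists_min_image (Finset.univ : Finset D) (fun u => Nat.card (S u))
    ⟨1, Finset.mem_univ _⟩
  refine ⟨u, fun a ha hau => ?_⟩
  by_contra ha1
  -- an element which is not fixed by `a`
  obtain ⟨w, hw⟩ : ∃ w : D, a • w ≠ w := by
    by_contra h
    push Not at h
    exact ha1 (hf a ha h)
  have hCp : ¬ p ∣ Nat.card (S u) := fun h => hE (h.trans (Subgroup.card_subgroup_dvd_card _))
  have haS : a ∈ S u := ⟨ha, hau⟩
  -- the part of `w` with trivial norm
  obtain ⟨v, hv⟩ : ∃ v : D, v = w ^ Nat.card (S u) * (nrm (S u) w)⁻¹ := ⟨_, rfl⟩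
  have hN1 : ∀ x : D, nrm (S u) x⁻¹ = (nrm (S u) x)⁻¹ := by
    intro x
    have h1 := Rv_mul (S u) x⁻¹ x
    rw [inv_mul_cancel] at h1
    have h2 : nrm (S u) (1 : D) = 1 := by
      rw [Rv_pow (S u) 1 (fun c _ => smul_one c), one_pow]
    rw [h2] at h1
    exact eq_inv_of_mul_eq_one_left h1.symm
  have hNp : ∀ (x : D) (k : ℕ), nrm (S u) (x ^ k) = (nrm (S u) x) ^ k := by
    intro x k
    induction k with
    | zero =>
      rw [pow_zero, pow_zero, Rv_pow (S u) 1 (fun c _ => smul_one c), one_pow]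
    | succ k ih => rw [pow_succ, Rv_mul, ih, pow_succ]
  have hNv : nrm (S u) v = 1 := by
    rw [hv, Rv_mul, hNp, hN1, Rv_pow (S u) (nrm (S u) w) (fun c hc => Rv_fix (S u) w c hc),
      mul_inv_cancel]
  have hav : a • v ≠ v := by
    intro h
    rw [hv, smul_mul', smul_inv', smul_pow', Rv_fix (S u) w a haS] at h
    have h1 : (a • w) ^ Nat.card (S u) = w ^ Nat.card (S u) := mul_right_cancel h
    have h2 : (a • w * w⁻¹) ^ Nat.card (S u) = 1 := by
      rw [mul_pow, h1, inv_pow, mul_inv_cancel]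
    exact hw (mul_inv_eq_one.1 (Rv_cop hp hD _ hCp _ h2))
  -- the stabilizer of `u * v` is smaller
  have hle : S (u * v) ≤ S u := by
    intro b hb
    refine ⟨hb.1, ?_⟩
    show b • u = u
    have h1 : b • (u * v) = u * v := hb.2
    rw [smul_mul'] at h1
    have h2 : (b • u) * u⁻¹ = v * (b • v)⁻¹ := by
      rw [eq_mul_inv_iff_mul_eq, mul_right_comm, h1, mul_right_comm, mul_inv_cancel, one_mul]
    have h3 : nrm (S u) ((b • u) * u⁻¹) = 1 := by
      rw [h2, Rv_mul, hN1, Rv_com (S u) b (fun c hc => hA b hb.1 c hc.1), hNv, smul_one,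
        inv_one, one_mul]
    have h4 : ∀ c ∈ S u, c • ((b • u) * u⁻¹) = (b • u) * u⁻¹ := by
      intro c hc
      rw [smul_mul', smul_inv', smul_smul, hA c hc.1 b hb.1, mul_smul]
      have h5 : c • u = u := hc.2
      rw [h5]
    rw [Rv_pow (S u) _ h4] at h3
    exact mul_inv_eq_one.1 (Rv_cop hp hD _ hCp _ h3)
  have hlt : S (u * v) < S u := by
    refine lt_of_le_of_ne hle fun h => hav ?_
    rw [← h] at haS
    have h1 : a • (u * v) = u * v := haS.2
    rw [smul_mul', hau] at h1
    exact mul_left_cancel h1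
  have h1 := hu (u * v) (Finset.mem_univ _)
  have h2 : Nat.card (S (u * v)) < Nat.card (S u) := by
    refine Set.Finite.card_lt_card (Set.toFinite _) ?_
    exact hlt
  omega

/-- The same with `u ≠ 1`. -/
theorem reg_vec_ne {D E : Type} [CommGroup D] [Finite D] [Nontrivial D] [Group E] [Finite E]
    [MulDistribMulAction E D] (p : ℕ) (hp : p.Prime) (hD : IsPGroup p D) (hE : ¬ p ∣ Nat.card E)
    (A : Subgroup E) (hA : ∀ a ∈ A, ∀ b ∈ A, a * b = b * a)
    (hf : ∀ a ∈ A, (∀ v : D, a • v = v) → a = 1) :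
    ∃ u : D, u ≠ 1 ∧ ∀ a ∈ A, a • u = u → a = 1 := by
  obtain ⟨u, hu⟩ := reg_vec p hp hD hE A hA hf
  by_cases h : u = 1
  · obtain ⟨w, hw⟩ := exists_ne (1 : D)
    refine ⟨w, hw, fun a ha _ => hu a ha ?_⟩
    rw [h, smul_one]
  · exact ⟨u, h, hu⟩

end Pool.Agent.KCK
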