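import Pool.Agent.KCK.Prj
import Pool.Agent.KCK.Rv

/-! Abelian defect groups with an inertial quotient which has an abelian normal subgroup with a cyclic
factor group of prime power order. -/

set_option autoImplicit false

namespace Pool.Agent.KCK

open Pool.Agent.KB Pool.Agent.KB.ContrAux Pool.Agent.KBL Pool.Agent.KBZ Pool.Agent.KBU
  Pool.Agent.KBQ Pool.Agent.KBD Pool.Agent.BrZ

/-- An element `v ≠ 1` with a cyclic stabilizer. -/
private theorem Abn_lat {D E : Type} [CommGroup D] [Finite D] [Nontrivial D] [Group E] [Finite E]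
    [MulDistribMulAction E D] (p : ℕ) (hp : p.Prime) (hD : IsPGroup p D)
    (hE : ¬ p ∣ Nat.card E) (faith : ∀ t : E, (∀ v : D, t • v = v) → t = 1)
    (R : ℤ → E → Prop) (h0 : R 0 1) (hmul : ∀ a b s t, R a s → R b t → R (a + b) (s * t))
    (hinv : ∀ a s, R a s → R (-a) s⁻¹) (hcomm : ∀ s t, R 0 s → R 0 t → s * t = t * s)
    (hall : ∀ t, ∃ a, R a t) (N : ℤ) (hN : ∀ a t, R (a * N) t → R 0 t) :
    ∃ v : D, v ≠ 1 ∧ ∃ t₀ : E, t₀ • v = v ∧ (∀ t : E, t • v = v → ∃ l : ℤ, t = t₀ ^ l) ∧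
      t₀ ^ N = 1 := by
  classical
  let A : Subgroup E :=
    { carrier := {t | R 0 t}
      one_mem' := h0
      mul_mem' := by
        intro a b ha hb
        have h1 := hmul 0 0 a b ha hb
        rwa [add_zero] at h1
      inv_mem' := by
        intro a ha
        have h1 := hinv 0 a ha
        rwa [neg_zero] at h1 }
  obtain ⟨v, hv1, hv⟩ := reg_vec_ne p hp hD hE A (fun a ha b hb => hcomm a b ha hb)
    (fun a _ h => faith a h)
  let M : AddSubgroup ℤ :=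
    { carrier := {m | ∃ t : E, t • v = v ∧ R m t}
      zero_mem' := ⟨1, one_smul _ _, h0⟩
      add_mem' := by
        rintro a b ⟨s, hs, hs'⟩ ⟨t, ht, ht'⟩
        exact ⟨s * t, by rw [mul_smul, ht, hs], hmul _ _ _ _ hs' ht'⟩
      neg_mem' := by
        rintro a ⟨s, hs, hs'⟩
        exact ⟨s⁻¹, by rw [inv_smul_eq_iff, hs], hinv _ _ hs'⟩ }
  have hM : ∀ m : ℤ, m ∈ M ↔ ∃ t : E, t • v = v ∧ R m t := fun _ => Iff.rfl
  obtain ⟨m, hm⟩ := Int.subgroup_cyclic M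
  have hmM : m ∈ M := by
    rw [hm]
    exact AddSubgroup.subset_closure (Set.mem_singleton m)
  obtain ⟨t₀, ht₀, ht₀'⟩ := (hM m).1 hmM
  have hpw : ∀ (j : ℤ), R (m * j) (t₀ ^ j) := by
    have hnat : ∀ j : ℕ, R (m * j) (t₀ ^ j) := by
      intro j
      induction j with
      | zero =>
        rw [Nat.cast_zero, mul_zero, pow_zero]
        exact h0
      | succ j ih =>
        have h1 := hmul _ _ _ _ ih ht₀'
        rw [← pow_succ] at h1
        have h2 : m * (j : ℤ) + m = m * ((j + 1 : ℕ) : ℤ) := by push_cast; ring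
        rwa [h2] at h1
    intro j
    obtain ⟨j, rfl | rfl⟩ := j.eq_nat_or_neg
    · rw [zpow_natCast]
      exact hnat j
    · have h1 := hinv _ _ (hnat j)
      rwa [← mul_neg, ← zpow_natCast, ← zpow_neg] at h1
  have hfx : ∀ j : ℤ, t₀ ^ j • v = v := by
    intro j
    have h1 : t₀ ∈ MulAction.stabilizer E v := ht₀
    exact (MulAction.stabilizer E v).zpow_mem h1 j
  refine ⟨v, hv1, t₀, ht₀, fun t ht => ?_, ?_⟩
  · obtain ⟨a, ha⟩ := hall t
    have h3 : a ∈ M := (hM a).2 ⟨t, ht, ha⟩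
    rw [hm] at h3
    obtain ⟨l, hl⟩ := AddSubgroup.mem_closure_singleton.1 h3
    rw [smul_eq_mul] at hl
    refine ⟨l, ?_⟩
    have h4 := hmul _ _ _ _ ha (hpw (-l))
    have h5 : a + m * -l = 0 := by rw [← hl]; ring
    rw [h5] at h4
    have h6 : t * t₀ ^ (-l) = 1 := hv _ h4 (by rw [mul_smul, hfx, ht])
    rw [zpow_neg] at h6
    exact mul_inv_eq_one.1 h6
  · exact hv _ (hN m _ (hpw N)) (hfx N)

/-- **The inequality** for an abelian defect group `P` if the stabilizer acts on `P` as a group which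
has an abelian normal subgroup (given by `S`) with a cyclic factor group of prime power order (given by
`τ`). Here the action is compared with an overgroup, by the injective homomorphism `ε`. -/
theorem Abn_main (hK : ThmK) {K H G : Type} [Group K] [Fintype K] [Group H] [Fintype H] [Group G]
    (p : ℕ) (hp : p.Prime) (𝔪 : Ideal AInt) (h𝔪 : 𝔪.IsMaximal) (hp𝔪 : (p : AInt) ∈ 𝔪)
    (χ : K → ℂ) (hχ : χ ∈ Irr K) (P : Subgroup K) (ι : H →* K) (η : H → ℂ)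
    (hD : DefP p 𝔪 χ P ι η) (hcP : ∀ a ∈ P, ∀ b ∈ P, a * b = b * a)
    (ε : K →* G) (hε : Function.Injective ε) (M : Subgroup G) (hεM : ∀ x ∈ P, ε x ∈ M)
    (S : Subgroup G) (hSM : ∀ s ∈ S, ∀ x ∈ M, s * x * s⁻¹ ∈ M)
    (hScom : ∀ a ∈ S, ∀ b ∈ S, ∀ x ∈ M, a * b * a⁻¹ * b⁻¹ * x = x * (a * b * a⁻¹ * b⁻¹))
    (τ : G) (hSτ : ∀ s ∈ S, τ * s * τ⁻¹ ∈ S) (hSτ' : ∀ s ∈ S, τ⁻¹ * s * τ ∈ S)
    (r c : ℕ) (hr : r.Prime) (hτr : τ ^ (r ^ c) ∈ S)
    (hst : ∀ k ∈ Stb 𝔪 hD.cen η, ∃ s ∈ S, ∃ a : ℤ, ∀ x ∈ P,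
      ε (k * x * k⁻¹) = (s * τ ^ a) * ε x * (s * τ ^ a)⁻¹) :
    (block 𝔪 χ).ncard ≤ p ^ defect p (block 𝔪 χ) := by
  classical
  by_cases hP0 : P = ⊥
  · have h0 : defect p (block 𝔪 χ) = 0 := by
      have h1 := hD.card
      rw [hP0, Subgroup.card_bot] at h1
      have h2 := hp.one_lt
      by_contra h3
      have h4 := Nat.one_lt_pow h3 h2
      omega
    exact FinA_small p hp 𝔪 h𝔪 hp𝔪 χ hχ (by omega)
  have hA := hD.abd hcP
  have hst' : ∀ k ∈ Stb 𝔪 hA.cen η, ∃ s ∈ S, ∃ a : ℤ, ∀ x ∈ P,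
      ε (k * x * k⁻¹) = (s * τ ^ a) * ε x * (s * τ ^ a)⁻¹ := hst
  have hgoal : ∀ (u : K), u ∈ P → u ≠ 1 → ∀ (t : K), (∀ x, x ∈ P ↔ t * x * t⁻¹ ∈ P) →
      (∀ x ∈ P, t ^ (r ^ c) * x * (t ^ (r ^ c))⁻¹ = x) →
      (∀ n ∈ Stb 𝔪 hA.cen η, n * u = u * n → ∃ k : ℤ, ∀ x ∈ P,
        n * x * n⁻¹ = t ^ k * x * (t ^ k)⁻¹) →
      (block 𝔪 χ).ncard ≤ p ^ defect p (block 𝔪 χ) := by
    intro u hu hu1 t ht h1 h2
    refine Fin_pp hK p hp 𝔪 h𝔪 hp𝔪 χ hχ P ι η hD u hu hu1 (fun a ha => hcP a ha u hu) ?_ r c hr t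
      ht ?_ ?_
    · intro a ha b hb
      rw [hcP a ha b hb, mul_inv_cancel_right, mul_inv_cancel]
      exact Subgroup.one_mem _
    · intro x hx
      rw [h1 x hx, mul_inv_cancel]
      exact Subgroup.one_mem _
    · intro n hn hnu
      obtain ⟨k, hk⟩ := h2 n hn hnu
      refine ⟨k, fun x hx => ?_⟩
      rw [hk x hx, mul_inv_cancel]
      exact Subgroup.one_mem _
  clear hst
  obtain ⟨D, E, i1, i2, i3, i4, i5, A, rfl, rfl, rfl⟩ :=
    Dat_ex p hp 𝔪 h𝔪 hp𝔪 χ hχ P ι η hA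
  have hN : Nontrivial D := by
    rw [nontrivial_iff]
    by_contra hcon
    push Not at hcon
    apply hP0
    rw [eq_bot_iff]
    rintro _ ⟨v, rfl⟩
    rw [hcon v 1, map_one]
    exact Subgroup.one_mem _
  -- conjugation with powers of `τ`
  have hconj : ∀ (a : ℤ), ∀ s ∈ S, τ ^ a * s * (τ ^ a)⁻¹ ∈ S := by
    have hnat : ∀ (a : ℕ), ∀ s ∈ S, τ ^ a * s * (τ ^ a)⁻¹ ∈ S := by
      intro a
      induction a with
      | zero => intro s hs; simpa using hs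
      | succ a ih =>
        intro s hs
        have h1 := hSτ _ (ih s hs)
        have h2 : τ * (τ ^ a * s * (τ ^ a)⁻¹) * τ⁻¹ = τ ^ (a + 1) * s * (τ ^ (a + 1))⁻¹ := by
          rw [pow_succ']
          group
        rwa [h2] at h1
    have hnat' : ∀ (a : ℕ), ∀ s ∈ S, (τ ^ a)⁻¹ * s * τ ^ a ∈ S := by
      intro a
      induction a with
      | zero => intro s hs; simpa using hs
      | succ a ih =>
        intro s hs
        have h1 := hSτ' _ (ih s hs)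
        have h2 : τ⁻¹ * ((τ ^ a)⁻¹ * s * τ ^ a) * τ = (τ ^ (a + 1))⁻¹ * s * τ ^ (a + 1) := by
          rw [pow_succ]
          group
        rwa [h2] at h1
    intro a s hs
    obtain ⟨a, rfl | rfl⟩ := a.eq_nat_or_neg
    · rw [zpow_natCast]
      exact hnat a s hs
    · rw [zpow_neg, zpow_natCast, inv_inv]
      exact hnat' a s hs
  let R : ℤ → E → Prop := fun a t => ∃ s ∈ S, ∀ v : D,
    ε (A.δ (t • v)) = (s * τ ^ a) * ε (A.δ v) * (s * τ ^ a)⁻¹
  obtain ⟨v, hv1, t₀, ht₀, ht₁, ht₂⟩ := Abn_lat p hp A.isP A.hE A.faith R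
    ⟨1, S.one_mem, fun v => by simp⟩
    (by
      rintro a b s t ⟨x, hx, hx'⟩ ⟨y, hy, hy'⟩
      refine ⟨x * (τ ^ a * y * (τ ^ a)⁻¹), S.mul_mem hx (hconj a y hy), fun v => ?_⟩
      rw [mul_smul, hx', hy', zpow_add]
      group)
    (by
      rintro a s ⟨x, hx, hx'⟩
      refine ⟨τ ^ (-a) * x⁻¹ * (τ ^ (-a))⁻¹, hconj _ _ (S.inv_mem hx), fun v => ?_⟩
      have h1 := hx' (s⁻¹ • v)
      rw [smul_inv_smul] at h1
      rw [h1]
      group)
    (by
      rintro s t ⟨x, hx, hx'⟩ ⟨y, hy, hy'⟩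
      have h1 : (t * s)⁻¹ * (s * t) = 1 := by
        apply A.faith
        intro v
        rw [mul_smul, inv_smul_eq_iff]
        apply A.dinj
        apply hε
        rw [mul_smul, mul_smul, hx', hy', hy', hx', zpow_zero, mul_one, mul_one]
        have h2 : y * x * ε (A.δ v) * (y * x)⁻¹ ∈ M := by
          have h3 := hSM y hy _ (hSM x hx _ (hεM _ ⟨v, rfl⟩))
          have h4 : y * (x * ε (A.δ v) * x⁻¹) * y⁻¹ = y * x * ε (A.δ v) * (y * x)⁻¹ := by group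
          rwa [h4] at h3
        have h3 := hScom x hx y hy _ h2
        have h4 : x * (y * ε (A.δ v) * y⁻¹) * x⁻¹ =
            (x * y * x⁻¹ * y⁻¹ * (y * x * ε (A.δ v) * (y * x)⁻¹)) *
              (x * y * x⁻¹ * y⁻¹)⁻¹ := by group
        rw [h4, h3, mul_inv_cancel_right]
        group
      exact (inv_mul_eq_one.1 h1).symm)
    (by
      intro t
      obtain ⟨s, hs, a, ha⟩ := hst' (A.τ t) (A.tmem t)
      refine ⟨a, s, hs, fun v => ?_⟩
      rw [← A.tact t v]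
      exact ha _ ⟨v, rfl⟩)
    ((r ^ c : ℕ) : ℤ)
    (by
      rintro a t ⟨s, hs, hs'⟩
      refine ⟨s * τ ^ (a * ((r ^ c : ℕ) : ℤ)), S.mul_mem hs ?_, fun v => ?_⟩
      · rw [mul_comm, zpow_mul, zpow_natCast]
        exact S.zpow_mem hτr a
      · rw [hs', zpow_zero, mul_one])
  have hstab : ∀ x, x ∈ A.δ.range ↔ A.τ t₀ * x * (A.τ t₀)⁻¹ ∈ A.δ.range :=
    ((Stb_mem 𝔪 _ _ _).1 (A.tmem t₀)).1
  have hact : ∀ (k : ℤ) (w : D), (A.τ t₀) ^ k * A.δ w * ((A.τ t₀) ^ k)⁻¹ = A.δ (t₀ ^ k • w) := by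
    have hnat : ∀ (k : ℕ) (w : D),
        (A.τ t₀) ^ k * A.δ w * ((A.τ t₀) ^ k)⁻¹ = A.δ (t₀ ^ k • w) := by
      intro k
      induction k with
      | zero => intro w; simp
      | succ k ih =>
        intro w
        rw [pow_succ' t₀, mul_smul, ← A.tact, ← ih, pow_succ']
        group
    intro k w
    obtain ⟨k, rfl | rfl⟩ := k.eq_nat_or_neg
    · rw [zpow_natCast, zpow_natCast]
      exact hnat k w
    · have h1 := hnat k (t₀ ^ (-(k : ℤ)) • w)
      rw [zpow_neg, zpow_natCast, smul_inv_smul] at h1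
      rw [← h1, zpow_neg, zpow_natCast, zpow_neg, zpow_natCast]
      group
  refine hgoal (A.δ v) ⟨v, rfl⟩ (fun h => hv1 (A.dinj (by rw [h, map_one]))) (A.τ t₀) hstab ?_ ?_
  · rintro _ ⟨w, rfl⟩
    have h1 := hact ((r ^ c : ℕ) : ℤ) w
    rw [ht₂, one_smul, zpow_natCast] at h1
    exact h1
  · intro n hn hnv
    obtain ⟨t, ht⟩ := A.tsur n hn
    have h1 : t • v = v := by
      apply A.dinj
      rw [← ht, hnv, mul_inv_cancel_right]
    obtain ⟨l, hl⟩ := ht₁ t h1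
    refine ⟨l, ?_⟩
    rintro _ ⟨w, rfl⟩
    rw [ht, hact, hl]

end Pool.Agent.KCK
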