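import Pool.Agent.KCK.Pw

/-! The abstract theorem: cyclic group of automorphisms. -/

namespace Pool.Agent.KCK

open Classical
open scoped Pointwise
open Pool.Agent.MSy Pool.Agent.Isk

/-- A faithful character of a cyclic group. -/
theorem exists_lam (E : Type) [CommGroup E] [Fintype E] [IsCyclic E] :
    ∃ l : E →* ℂˣ, ∀ s, l s = 1 → s = 1 := by
  obtain ⟨g, hg⟩ := IsCyclic.exists_generator (α := E)
  have hn : Nat.card E ≠ 0 := Nat.card_pos.ne'
  have hz := Complex.isPrimitiveRoot_exp (Nat.card E) hn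
  obtain ⟨ζ, hζ⟩ : ∃ ζ : ℂˣ, (ζ : ℂ) = Complex.exp (2 * Real.pi * Complex.I / (Nat.card E)) :=
    ⟨Units.mk0 _ (hz.ne_zero hn), rfl⟩
  have hζ' : IsPrimitiveRoot ζ (Nat.card E) := by
    rw [← IsPrimitiveRoot.coe_units_iff, hζ]
    exact hz
  have hord : orderOf g = Nat.card E := orderOf_eq_card_of_forall_mem_zpowers hg
  have hd : orderOf ζ ∣ orderOf g := by
    rw [hord, ← hζ'.eq_orderOf]
  refine ⟨monoidHomOfForallMemZpowers hg hd, fun s hs => ?_⟩
  obtain ⟨k, rfl⟩ := Subgroup.mem_zpowers_iff.1 (hg s)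
  rw [map_zpow, monoidHomOfForallMemZpowers_apply_gen] at hs
  have h1 := (hζ'.zpow_eq_one_iff_dvd k).1 hs
  rw [← hord] at h1
  exact orderOf_dvd_iff_zpow_eq_one.1 h1

section

variable {E : Type} [CommGroup E] [Fintype E]

/-- The sum of the powers. -/
theorem lam_geom (l : E →* ℂˣ) (hl : ∀ s, l s = 1 → s = 1) (s t : E) :
    ∑ i ∈ Finset.range (Nat.card E), (starRingEnd ℂ) (ev l s ^ i) * ev l t ^ i =
      if s = t then (Nat.card E : ℂ) else 0 := by
  have hs1 : (starRingEnd ℂ) (ev l s) * ev l s = 1 := by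
    have h1 : ‖ev l s‖ = 1 := by
      refine Complex.norm_eq_one_of_pow_eq_one (n := Nat.card E) ?_ Nat.card_pos.ne'
      have h2 : l s ^ Nat.card E = 1 := by rw [← map_pow, pow_card_eq_one', map_one]
      unfold ev
      rw [← Units.val_pow_eq_pow_val, h2, Units.val_one]
    rw [Complex.conj_mul', h1]
    norm_num
  have h0 : ∀ i ∈ Finset.range (Nat.card E), (starRingEnd ℂ) (ev l s ^ i) * ev l t ^ i =
      ((starRingEnd ℂ) (ev l s) * ev l t) ^ i := by
    intro i _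
    rw [map_pow, mul_pow]
  rw [Finset.sum_congr rfl h0]
  split_ifs with h
  · rw [← h, hs1]
    simp
  · have hne : (starRingEnd ℂ) (ev l s) * ev l t ≠ 1 := by
      intro h1
      apply h
      have h2 : ev l t = ev l s := by
        have h3 : ev l s * ((starRingEnd ℂ) (ev l s) * ev l t) = ev l s * 1 := by rw [h1]
        rw [← mul_assoc, mul_comm (ev l s), hs1, one_mul, mul_one] at h3
        exact h3
      have h3 : l t = l s := Units.ext h2
      have h4 : l (s⁻¹ * t) = 1 := by rw [map_mul, map_inv, h3, inv_mul_cancel]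
      exact (inv_mul_eq_one.1 (hl _ h4))
    have h1 : ((starRingEnd ℂ) (ev l s) * ev l t) ^ Nat.card E = 1 := by
      rw [mul_pow, ← map_pow]
      have h2 : ∀ x : E, ev l x ^ Nat.card E = 1 := by
        intro x
        have h3 : l x ^ Nat.card E = 1 := by rw [← map_pow, pow_card_eq_one', map_one]
        unfold ev
        rw [← Units.val_pow_eq_pow_val, h3, Units.val_one]
      rw [h2, h2, map_one, one_mul]
    have h2 := geom_sum_mul ((starRingEnd ℂ) (ev l s) * ev l t) (Nat.card E)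
    rw [h1, sub_self] at h2
    exact (mul_eq_zero.1 h2).resolve_right (sub_ne_zero.2 hne)

/-- The sum of the values. -/
theorem lam_sum (l : E →* ℂˣ) (hl : ∀ s, l s = 1 → s = 1) :
    ((Nat.card E : ℂ) - 1) * ∑ s : E, ev l s = 0 := by
  by_cases h : ∀ s : E, s = 1
  · have h1 : Nat.card E = 1 := by
      rw [Nat.card_eq_one_iff_unique]
      exact ⟨⟨fun a b => (h a).trans (h b).symm⟩, ⟨1⟩⟩
    rw [h1]
    simp
  · push Not at h
    obtain ⟨g, hg⟩ := h
    have h1 : ∑ s : E, ev l s = ev l g * ∑ s : E, ev l s := by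
      rw [Finset.mul_sum, ← Equiv.sum_comp (Equiv.mulLeft g)]
      refine Finset.sum_congr rfl fun s _ => ?_
      rw [Equiv.coe_mulLeft, ev_mul]
    have h2 : (1 - ev l g) * ∑ s : E, ev l s = 0 := by rw [sub_mul, one_mul, ← h1, sub_self]
    rcases mul_eq_zero.1 h2 with h3 | h3
    · exfalso
      exact hg (hl g (Units.ext (sub_eq_zero.1 h3).symm))
    · rw [h3, mul_zero]

/-- The count. `F s` is the number of the characters fixed by `s`. -/
theorem cnt_bound (l : E →* ℂˣ) (hl : ∀ s, l s = 1 → s = 1) (F : E → ℕ)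
    (hF : ∀ s, s ≠ 1 → (Nat.card E + 1) * F s ≤ F 1) :
    2 * (Nat.card E : ℝ) * (∑ s, (F s : ℝ)) -
      2 * ((Nat.card E : ℝ) - 1) * (∑ s, (F s : ℝ) * (ev l s).re) ≤
      2 * (Nat.card E : ℝ) * (F 1 : ℝ) := by
  have hf1 : (1 : ℝ) ≤ (Nat.card E : ℝ) := by
    exact_mod_cast Nat.card_pos
  have hre : ∀ s, (ev l s).re ≤ 1 := by
    intro s
    have h1 : ‖ev l s‖ = 1 := by
      refine Complex.norm_eq_one_of_pow_eq_one (n := Nat.card E) ?_ Nat.card_pos.ne'
      have h2 : l s ^ Nat.card E = 1 := by rw [← map_pow, pow_card_eq_one', map_one]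
      unfold ev
      rw [← Units.val_pow_eq_pow_val, h2, Units.val_one]
    have := Complex.re_le_norm (ev l s)
    rwa [h1] at this
  have h1 : 2 * (Nat.card E : ℝ) * (∑ s, (F s : ℝ)) -
      2 * ((Nat.card E : ℝ) - 1) * (∑ s, (F s : ℝ) * (ev l s).re) =
      ∑ s, (F s : ℝ) * (2 * (Nat.card E : ℝ) - 2 * ((Nat.card E : ℝ) - 1) * (ev l s).re) := by
    rw [Finset.mul_sum, Finset.mul_sum, ← Finset.sum_sub_distrib]
    exact Finset.sum_congr rfl fun s _ => by ring
  rw [h1, ← Finset.add_sum_erase _ _ (Finset.mem_univ (1 : E))]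
  have h2 : (ev l (1 : E)).re = 1 := by rw [ev_one, Complex.one_re]
  rw [h2]
  have h3 : ∑ s ∈ Finset.univ.erase (1 : E), (F s : ℝ) *
      (2 * (Nat.card E : ℝ) - 2 * ((Nat.card E : ℝ) - 1) * (ev l s).re) ≤
      ∑ s ∈ Finset.univ.erase (1 : E), ((F 1 : ℝ) / ((Nat.card E : ℝ) + 1)) *
      (2 * (Nat.card E : ℝ) - 2 * ((Nat.card E : ℝ) - 1) * (ev l s).re) := by
    refine Finset.sum_le_sum fun s hs => ?_
    refine mul_le_mul_of_nonneg_right ?_ ?_
    · rw [le_div_iff₀ (by linarith)]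
      have h4 := hF s (Finset.ne_of_mem_erase hs)
      have h5 : ((Nat.card E : ℝ) + 1) * (F s : ℝ) ≤ (F 1 : ℝ) := by exact_mod_cast h4
      linarith
    · have h4 := hre s
      nlinarith
  have h4 : ∑ s ∈ Finset.univ.erase (1 : E),
      (2 * (Nat.card E : ℝ) - 2 * ((Nat.card E : ℝ) - 1) * (ev l s).re) =
      2 * ((Nat.card E : ℝ) - 1) * ((Nat.card E : ℝ) + 1) := by
    rw [Finset.sum_sub_distrib, Finset.sum_const, ← Finset.mul_sum, nsmul_eq_mul]
    have h5 : ((Finset.univ.erase (1 : E)).card : ℝ) = (Nat.card E : ℝ) - 1 := by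
      rw [Finset.card_erase_of_mem (Finset.mem_univ _), Finset.card_univ,
        ← Nat.card_eq_fintype_card, Nat.cast_sub Nat.card_pos, Nat.cast_one]
    have h6 : ((Nat.card E : ℝ) - 1) * ∑ s ∈ Finset.univ.erase (1 : E), (ev l s).re =
        -((Nat.card E : ℝ) - 1) := by
      have h7 := congrArg Complex.re (lam_sum l hl)
      have h8 : (((Nat.card E : ℂ) - 1) * ∑ s : E, ev l s).re =
          ((Nat.card E : ℝ) - 1) * ∑ s : E, (ev l s).re := by
        have h9 : ((Nat.card E : ℂ) - 1) = (((Nat.card E : ℝ) - 1 : ℝ) : ℂ) := by push_cast; rfl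
        rw [h9, Complex.re_ofReal_mul, Complex.re_sum]
      rw [h8, ← Finset.add_sum_erase _ _ (Finset.mem_univ (1 : E)), h2, Complex.zero_re] at h7
      linarith
    rw [h5]
    nlinarith
  rw [← Finset.mul_sum, h4] at h3
  have h5 : (F 1 : ℝ) / ((Nat.card E : ℝ) + 1) *
      (2 * ((Nat.card E : ℝ) - 1) * ((Nat.card E : ℝ) + 1)) =
      2 * ((Nat.card E : ℝ) - 1) * (F 1 : ℝ) := by
    have : ((Nat.card E : ℝ) + 1) ≠ 0 := by linarith
    field_simp
  rw [h5] at h3
  nlinarith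

end

/-- The path. -/
theorem path_two {X : Type} [Fintype X] (k : ℕ) (m : ℕ → X → ℤ) (M : ℕ → X → ℤ)
    (h0 : ∀ x, M 0 x = 0) (hM : ∀ j x, j ≤ k → M (j + 1) x = m j x) (hl : ∀ x, M (k + 2) x = 0)
    (a : X → ℂ) (ha : ∀ i j : Fin (k + 2), i ≠ j →
      ∑ x, a x * ((M (i + 1) x - M i x : ℤ) : ℂ) = 0 ∨
      ∑ x, a x * ((M (j + 1) x - M j x : ℤ) : ℂ) = 0) (j : ℕ) (hj : j ≤ k) :
    ∑ x, a x * (m j x : ℂ) = 0 := by
  obtain ⟨y, hy⟩ : ∃ y : ℕ → ℂ, ∀ i, y i = ∑ x, a x * (M i x : ℂ) := ⟨_, fun _ => rfl⟩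
  have h1 : ∀ i, ∑ x, a x * ((M (i + 1) x - M i x : ℤ) : ℂ) = y (i + 1) - y i := by
    intro i
    rw [hy, hy, ← Finset.sum_sub_distrib]
    refine Finset.sum_congr rfl fun x _ => ?_
    push_cast
    ring
  have hy0 : y 0 = 0 := by
    rw [hy]
    exact Finset.sum_eq_zero fun x _ => by rw [h0]; simp
  have hyl : y (k + 2) = 0 := by
    rw [hy]
    exact Finset.sum_eq_zero fun x _ => by rw [hl]; simp
  have htot : ∑ i : Fin (k + 2), (y ((i : ℕ) + 1) - y i) = 0 := by
    rw [Fin.sum_univ_eq_sum_range (fun i => y (i + 1) - y i) (k + 2), Finset.sum_range_sub, hy0,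
      hyl, sub_zero]
  have hz : ∀ i : Fin (k + 2), y ((i : ℕ) + 1) - y i = 0 := by
    intro i
    by_contra hi
    have h2 : ∑ i : Fin (k + 2), (y ((i : ℕ) + 1) - y i) = y ((i : ℕ) + 1) - y i := by
      refine Finset.sum_eq_single i (fun j _ hj => ?_) fun h => absurd (Finset.mem_univ _) h
      rcases ha i j hj.symm with h3 | h3
      · rw [h1] at h3
        exact absurd h3 hi
      · rw [h1] at h3
        exact h3
    rw [htot] at h2
    exact hi h2.symm
  have h2 : ∀ i, i ≤ k + 1 → y i = 0 := by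
    intro i
    induction i with
    | zero => exact fun _ => hy0
    | succ i ih =>
      intro hi
      have h3 := hz ⟨i, by omega⟩
      have h4 := ih (by omega)
      rw [h4, sub_zero] at h3
      exact h3
  have h3 := h2 (j + 1) (by omega)
  rw [hy] at h3
  rw [← h3]
  exact Finset.sum_congr rfl fun x _ => by rw [hM j x hj]

theorem path_norm {X : Type} [Fintype X] (k : ℕ) (m : ℕ → X → ℤ) (M : ℕ → X → ℤ)
    (h0 : ∀ x, M 0 x = 0) (hM : ∀ j x, j ≤ k → M (j + 1) x = m j x) (hl : ∀ x, M (k + 2) x = 0)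
    (g₀ g₁ : ℤ) (hg : ∀ i, i ≤ k → ∑ x, m i x ^ 2 = g₀)
    (hg' : ∀ i, i + 1 ≤ k → ∑ x, m i x * m (i + 1) x = g₁) :
    ∑ i : Fin (k + 2), ∑ x, (M (i + 1) x - M i x) ^ 2 = 2 * (k + 1) * g₀ - 2 * k * g₁ := by
  rw [Fin.sum_univ_eq_sum_range (fun i => ∑ x, (M (i + 1) x - M i x) ^ 2) (k + 2),
    Finset.sum_range_succ, Finset.sum_range_succ']
  have h1 : ∑ x, (M (0 + 1) x - M 0 x) ^ 2 = g₀ := by
    rw [← hg 0 (Nat.zero_le _)]
    refine Finset.sum_congr rfl fun x _ => ?_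
    rw [h0, hM 0 x (Nat.zero_le _), sub_zero]
  have h2 : ∑ x, (M (k + 1 + 1) x - M (k + 1) x) ^ 2 = g₀ := by
    rw [← hg k le_rfl]
    refine Finset.sum_congr rfl fun x _ => ?_
    rw [show k + 1 + 1 = k + 2 from rfl, hl, hM k x le_rfl]
    ring
  have h3 : ∀ i ∈ Finset.range k, ∑ x, (M (i + 1 + 1) x - M (i + 1) x) ^ 2 =
      2 * g₀ - 2 * g₁ := by
    intro i hi
    have hi' := Finset.mem_range.1 hi
    have h4 := hg i (by omega)
    have h5 := hg (i + 1) (by omega)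
    have h6 := hg' i (by omega)
    have h7 : ∑ x, (M (i + 1 + 1) x - M (i + 1) x) ^ 2 =
        ∑ x, (m (i + 1) x ^ 2 + m i x ^ 2 - 2 * (m i x * m (i + 1) x)) := by
      refine Finset.sum_congr rfl fun x _ => ?_
      rw [hM (i + 1) x (by omega), hM i x (by omega)]
      ring
    rw [h7, Finset.sum_sub_distrib, Finset.sum_add_distrib, h4, h5, ← Finset.mul_sum, h6]
    ring
  rw [Finset.sum_congr rfl h3, h1, h2, Finset.sum_const, Finset.card_range, nsmul_eq_mul]
  ring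

end Pool.Agent.KCK
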