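import Pool.Agent.KCK.Axc

/-! The abstract theorem: the family of generalized characters. -/

namespace Pool.Agent.KCK

open Classical
open scoped Pointwise
open Pool.Agent.MSy Pool.Agent.Isk

variable {p : ℕ} {D E Ω V : Type} [CommGroup D] [Fintype D] [CommGroup E] [Fintype E]
    [MulDistribMulAction E D] [Fintype Ω] [NormedAddCommGroup V] [InnerProductSpace ℂ V]
    {B : BSys p D E Ω V} {e : Subgroup D → E → V} {R : Subgroup D}

/-- The frame vectors are combinations of the values at `1` of the `PW`. -/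
private theorem Axd_e (hR : (EE E R : Subgroup E) = ⊤) (l : E →* ℂˣ) (hl : ∀ s, l s = 1 → s = 1)
    (s : E) : ((Nat.card E : ℂ) * ((FX R s).card : ℂ)) • e R s =
      ∑ i ∈ Finset.range (Nat.card E), (starRingEnd ℂ) (ev l s ^ i) • PW e R (l ^ i) 1 := by
  have h1 : ∀ i ∈ Finset.range (Nat.card E), (starRingEnd ℂ) (ev l s ^ i) • PW e R (l ^ i) 1 =
      ∑ t : E, ((starRingEnd ℂ) (ev l s ^ i) * ev l t ^ i * ((FX R t).card : ℂ)) • e R t := by
    intro i _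
    rw [PW_on _ (one_mem R), Finset.smul_sum, hR]
    rw [Finset.filter_true_of_mem fun t _ => Subgroup.mem_top t]
    refine Finset.sum_congr rfl fun t _ => ?_
    rw [smul_smul]
    congr 1
    have h2 : ev (l ^ i) t = ev l t ^ i := by
      unfold ev
      rw [MonoidHom.pow_apply, Units.val_pow_eq_pow_val]
    rw [h2]
    ring
  rw [Finset.sum_congr rfl h1, Finset.sum_comm]
  have h2 : ∀ t : E, ∑ i ∈ Finset.range (Nat.card E),
      ((starRingEnd ℂ) (ev l s ^ i) * ev l t ^ i * ((FX R t).card : ℂ)) • e R t =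
      ((if s = t then (Nat.card E : ℂ) else 0) * ((FX R t).card : ℂ)) • e R t := by
    intro t
    rw [← Finset.sum_smul, ← Finset.sum_mul, lam_geom l hl]
  rw [Finset.sum_congr rfl fun t _ => h2 t, Finset.sum_eq_single s]
  · rw [if_pos rfl]
  · intro t _ hne
    rw [if_neg (Ne.symm hne), zero_mul, zero_smul]
  · intro h
    exact absurd (Finset.mem_univ _) h

/-- The Gram matrix. -/
private theorem Axd_gram (hL : Lv B e R) (hR : (EE E R : Subgroup E) = ⊤) (l : E →* ℂˣ)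
    (i j : ℕ) : ip E R (PW e R (l ^ i)) (PW e R (l ^ j)) =
      (Nat.card E : ℂ)⁻¹ * ∑ s : E, (starRingEnd ℂ) (ev l s ^ i) * ev l s ^ j *
        ((FX R s).card : ℂ) := by
  have h0 : ∀ z ∈ R, PW e R (l ^ i) z = PW e R (l ^ i) 1 := fun z hz => by
    rw [PW_on _ hz, PW_on _ (one_mem R)]
  rw [ip_PW B _ _ h0, inner_PW hL, hR, Finset.filter_true_of_mem fun t _ => Subgroup.mem_top t,
    Finset.mul_sum, Finset.mul_sum]
  refine Finset.sum_congr rfl fun s _ => ?_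
  have h1 : fx D s = Nat.card R * (FX R s).card :=
    card_FX B.hp B.hD B.hE (by rw [hR]; exact Subgroup.mem_top s)
  have h2 : (Nat.card R : ℂ) ≠ 0 := Nat.cast_ne_zero.2 Nat.card_pos.ne'
  have h3 : ((FX R s).card : ℂ) ≠ 0 :=
    Nat.cast_ne_zero.2 (Finset.card_pos.2 ⟨1, one_mem_FX R s⟩).ne'
  have h4 : (Nat.card E : ℂ) ≠ 0 := Nat.cast_ne_zero.2 Nat.card_pos.ne'
  have h5 : ∀ k : ℕ, ev (l ^ k) s = ev l s ^ k := by
    intro k
    unfold ev
    rw [MonoidHom.pow_apply, Units.val_pow_eq_pow_val]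
  have h6 : Nat.card (⊤ : Subgroup E) = Nat.card E := Nat.card_congr (Equiv.Set.univ E)
  rw [h5, h5, h1, h6, Nat.cast_mul]
  field_simp

/-- The family. -/
theorem Ax_cyc [IsCyclic E] (hL : Lv B e R) (hR : (EE E R : Subgroup E) = ⊤)
    (hd : Module.finrank ℂ (B.VS R) = Nat.card E)
    (hfx : ∀ s : E, s ≠ 1 → (Nat.card E + 1) * fx D s ≤ Nat.card D) :
    ∃ (N : ℕ) (n : Fin N → Ω → ℤ),
      (∀ i χ, n i χ ≠ 0 → χ ∈ I1 B R) ∧
      (∀ i, ∀ v, v ∉ R → ∑ χ, (n i χ : ℂ) • B.dd χ v = 0) ∧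
      (Nat.card R : ℤ) * ∑ i, ∑ χ, n i χ ^ 2 ≤ 2 * (Nat.card D : ℤ) ∧
      ∀ a : Ω → ℂ, (∀ i j, i ≠ j → ∑ χ, a χ * (n i χ : ℂ) = 0 ∨
          ∑ χ, a χ * (n j χ : ℂ) = 0) →
        ∀ ψ, B.lev ψ = R → ∑ χ ∈ I1 B R, a χ * (inner ℂ (B.o χ) (B.o ψ) : ℂ) = 0 := by
  obtain ⟨l, hl⟩ := exists_lam E
  obtain ⟨k, hk⟩ : ∃ k, Nat.card E = k + 1 := ⟨Nat.card E - 1, by
    have : 0 < Nat.card E := Nat.card_pos
    omega⟩
  have hK : ∀ i, PW e R (l ^ i) ∈ B.K R := fun i => ((Frb.mem_Z_iff B).1 (PW_mem hL _)).1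
  have hX := fun i => expand_I1 (hK i) fun z hz v => PW_inv B (l ^ i) hz v
  -- the coefficients
  have hex : ∀ (i : ℕ) (χ : Ω), ∃ n : ℤ, (χ ∈ I1 B R → ip E R (B.dd χ) (PW e R (l ^ i)) = n) ∧
      (χ ∉ I1 B R → n = 0) := by
    intro i χ
    by_cases hχ : χ ∈ I1 B R
    · obtain ⟨n, hn⟩ := ((Frb.mem_Z_iff B).1 (PW_mem hL (l ^ i))).2 χ (Finset.mem_filter.1 hχ).2.1
      exact ⟨n, fun _ => hn, fun h => absurd hχ h⟩
    · exact ⟨0, fun h => absurd h hχ, fun _ => rfl⟩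
  choose m hm1 hm0 using hex
  have hsum : ∀ (i : ℕ) (v : D), ∑ χ, (m i χ : ℂ) • B.dd χ v = PW e R (l ^ i) v := by
    intro i v
    have h1 := congrFun (hX i).2.1 v
    rw [h1, Finset.sum_apply]
    symm
    refine (Finset.sum_congr rfl fun χ hχ => ?_).trans
      (Finset.sum_subset (Finset.subset_univ (I1 B R)) fun χ _ hχ => ?_)
    · rw [Pi.smul_apply, hm1 i χ hχ]
    · rw [hm0 i χ hχ, Int.cast_zero, zero_smul]
  have hgram : ∀ i j : ℕ, ((∑ χ, m i χ * m j χ : ℤ) : ℂ) = (Nat.card E : ℂ)⁻¹ *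
      ∑ s : E, (starRingEnd ℂ) (ev l s ^ i) * ev l s ^ j * ((FX R s).card : ℂ) := by
    intro i j
    rw [← Axd_gram hL hR l i j, (hX i).2.2 _ (hK j)]
    rw [Int.cast_sum]
    symm
    refine (Finset.sum_congr rfl fun χ hχ => ?_).trans
      (Finset.sum_subset (Finset.subset_univ (I1 B R)) fun χ _ hχ => ?_)
    · rw [hm1 i χ hχ, hm1 j χ hχ, map_intCast, ← Int.cast_mul]
    · rw [hm0 i χ hχ, zero_mul, Int.cast_zero]
  have hcs : ∀ s, (starRingEnd ℂ) (ev l s) * ev l s = 1 := by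
    intro s
    have h1 : ‖ev l s‖ = 1 := by
      refine Complex.norm_eq_one_of_pow_eq_one (n := Nat.card E) ?_ Nat.card_pos.ne'
      have h2 : l s ^ Nat.card E = 1 := by rw [← map_pow, pow_card_eq_one', map_one]
      unfold ev
      rw [← Units.val_pow_eq_pow_val, h2, Units.val_one]
    rw [Complex.conj_mul', h1]
    norm_num
  have hcs' : ∀ (s : E) (i : ℕ), (starRingEnd ℂ) (ev l s ^ i) * ev l s ^ i = 1 := by
    intro s i
    rw [map_pow, ← mul_pow, hcs, one_pow]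
  have hfE : (Nat.card E : ℂ) ≠ 0 := Nat.cast_ne_zero.2 Nat.card_pos.ne'
  -- the numbers
  obtain ⟨g₀, hg₀⟩ : ∃ g₀ : ℤ, g₀ = ∑ χ, m 0 χ * m 0 χ := ⟨_, rfl⟩
  obtain ⟨g₁, hg₁⟩ : ∃ g₁ : ℤ, g₁ = ∑ χ, m 0 χ * m 1 χ := ⟨_, rfl⟩
  have hg₀' : (Nat.card E : ℂ) * (g₀ : ℂ) = ∑ s : E, ((FX R s).card : ℂ) := by
    rw [hg₀, hgram 0 0, mul_inv_cancel_left₀ hfE]
    refine Finset.sum_congr rfl fun s _ => ?_
    rw [hcs', one_mul]
  have hg₁' : (Nat.card E : ℂ) * (g₁ : ℂ) = ∑ s : E, ((FX R s).card : ℂ) * ev l s := by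
    rw [hg₁, hgram 0 1, mul_inv_cancel_left₀ hfE]
    refine Finset.sum_congr rfl fun s _ => ?_
    rw [pow_zero, map_one, one_mul, pow_one, mul_comm]
  have hG : ∀ i, i ≤ k → ∑ χ, m i χ ^ 2 = g₀ := by
    intro i _
    have h1 : ((∑ χ, m i χ ^ 2 : ℤ) : ℂ) = (g₀ : ℂ) := by
      rw [hg₀, hgram 0 0, Finset.sum_congr rfl fun χ _ => pow_two (m i χ), hgram i i]
      congr 1
      refine Finset.sum_congr rfl fun s _ => ?_
      rw [hcs', hcs']
    exact_mod_cast h1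
  have hG' : ∀ i, i + 1 ≤ k → ∑ χ, m i χ * m (i + 1) χ = g₁ := by
    intro i _
    have h1 : ((∑ χ, m i χ * m (i + 1) χ : ℤ) : ℂ) = (g₁ : ℂ) := by
      rw [hg₁, hgram 0 1, hgram i (i + 1)]
      congr 1
      refine Finset.sum_congr rfl fun s _ => ?_
      rw [pow_succ, ← mul_assoc, hcs', pow_zero, map_one, pow_one]
    exact_mod_cast h1
  -- the path
  obtain ⟨M, hM⟩ : ∃ M : ℕ → Ω → ℤ, ∀ j χ, M j χ =
      if j = 0 ∨ k + 1 < j then 0 else m (j - 1) χ := ⟨_, fun _ _ => rfl⟩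
  have hM0 : ∀ χ, M 0 χ = 0 := fun χ => by rw [hM, if_pos (Or.inl rfl)]
  have hM1 : ∀ j χ, j ≤ k → M (j + 1) χ = m j χ := fun j χ hj => by
    rw [hM, if_neg (by omega), Nat.add_sub_cancel]
  have hM2 : ∀ χ, M (k + 2) χ = 0 := fun χ => by rw [hM, if_pos (Or.inr (by omega))]
  have hMn : ∀ j χ, χ ∉ I1 B R → M j χ = 0 := by
    intro j χ hχ
    rw [hM]
    split_ifs with h
    · rfl
    · exact hm0 _ _ hχ
  have hMo : ∀ j v, v ∉ R → ∑ χ, (M j χ : ℂ) • B.dd χ v = 0 := by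
    intro j v hv
    by_cases h : j = 0 ∨ k + 1 < j
    · refine Finset.sum_eq_zero fun χ _ => ?_
      rw [hM, if_pos h, Int.cast_zero, zero_smul]
    · rw [Finset.sum_congr rfl fun χ _ => by rw [hM, if_neg h]]
      rw [hsum, PW_off B _ hv]
  refine ⟨k + 2, fun i χ => M ((i : ℕ) + 1) χ - M i χ, ?_, ?_, ?_, ?_⟩
  · intro i χ hne
    by_contra hχ
    exact hne (by show M ((i : ℕ) + 1) χ - M i χ = 0; rw [hMn _ _ hχ, hMn _ _ hχ, sub_zero])
  · intro i v hv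
    have h1 : ∀ χ, ((M ((i : ℕ) + 1) χ - M i χ : ℤ) : ℂ) • B.dd χ v =
        (M ((i : ℕ) + 1) χ : ℂ) • B.dd χ v - (M i χ : ℂ) • B.dd χ v := by
      intro χ
      rw [Int.cast_sub, sub_smul]
    rw [Finset.sum_congr rfl fun χ _ => h1 χ, Finset.sum_sub_distrib, hMo _ v hv, hMo _ v hv,
      sub_zero]
  · have h1 := path_norm k m M hM0 hM1 hM2 g₀ g₁ hG hG'
    rw [h1]
    have hF1 : fx D (1 : E) = Nat.card D :=
      Nat.card_congr (Equiv.subtypeUnivEquiv fun v => one_smul E v)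
    have hcF : ∀ s : E, fx D s = Nat.card R * (FX R s).card := fun s =>
      card_FX B.hp B.hD B.hE (by rw [hR]; exact Subgroup.mem_top s)
    have hRp : 0 < Nat.card R := Nat.card_pos
    have h2 := cnt_bound l hl (fun s => (FX R s).card) (fun s hs => by
      have h3 := hfx s hs
      rw [← hF1, hcF, hcF] at h3
      refine Nat.le_of_mul_le_mul_left (c := Nat.card R) ?_ hRp
      calc Nat.card R * ((Nat.card E + 1) * (FX R s).card)
          = (Nat.card E + 1) * (Nat.card R * (FX R s).card) := by ring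
        _ ≤ Nat.card R * (FX R (1 : E)).card := h3)
    have h3 : (Nat.card E : ℝ) * (g₀ : ℝ) = ∑ s : E, ((FX R s).card : ℝ) := by
      have h4 := congrArg Complex.re hg₀'
      rw [Complex.re_sum, show ((Nat.card E : ℂ) * (g₀ : ℂ)) = (((Nat.card E : ℝ) * (g₀ : ℝ) : ℝ) : ℂ)
        by push_cast; rfl, Complex.ofReal_re] at h4
      rw [h4]
      exact Finset.sum_congr rfl fun s _ => Complex.natCast_re _
    have h4 : (Nat.card E : ℝ) * (g₁ : ℝ) = ∑ s : E, ((FX R s).card : ℝ) * (ev l s).re := by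
      have h4 := congrArg Complex.re hg₁'
      rw [Complex.re_sum, show ((Nat.card E : ℂ) * (g₁ : ℂ)) = (((Nat.card E : ℝ) * (g₁ : ℝ) : ℝ) : ℂ)
        by push_cast; rfl, Complex.ofReal_re] at h4
      rw [h4]
      refine Finset.sum_congr rfl fun s _ => ?_
      rw [show ((FX R s).card : ℂ) = (((FX R s).card : ℝ) : ℂ) by push_cast; rfl,
        Complex.re_ofReal_mul]
    rw [← h3, ← h4] at h2
    have h5 : (Nat.card E : ℝ) = (k : ℝ) + 1 := by rw [hk]; push_cast; rfl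
    have h6 : (0 : ℝ) < (k : ℝ) + 1 := by positivity
    rw [h5] at h2
    have h7 : 2 * ((k : ℝ) + 1) * (g₀ : ℝ) - 2 * (k : ℝ) * (g₁ : ℝ) ≤
        2 * ((FX R (1 : E)).card : ℝ) := by
      refine le_of_mul_le_mul_left (a := (k : ℝ) + 1) ?_ h6
      linarith
    have h8 : 2 * ((k : ℤ) + 1) * g₀ - 2 * (k : ℤ) * g₁ ≤ 2 * ((FX R (1 : E)).card : ℤ) := by
      exact_mod_cast h7
    have h9 : (Nat.card D : ℤ) = (Nat.card R : ℤ) * ((FX R (1 : E)).card : ℤ) := by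
      rw [← hF1, hcF]
      push_cast
      rfl
    rw [h9]
    nlinarith [hRp]
  · intro a ha ψ hψ
    have h1 := path_two k m M hM0 hM1 hM2 a ha
    -- the expansion of `o ψ`
    have hoψ : B.o ψ ∈ B.VS R := Submodule.subset_span ⟨ψ, hψ, rfl⟩
    have h2 := coord hL (by
      rw [hd, hR]
      exact (Nat.card_congr (Equiv.Set.univ E)).symm) hoψ
    rw [hR, Finset.filter_true_of_mem fun t _ => Subgroup.mem_top t] at h2
    obtain ⟨c, hc⟩ : ∃ c : E → ℂ, B.o ψ = ∑ s : E, c s • e R s := ⟨_, h2⟩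
    obtain ⟨b, hb⟩ : ∃ b : ℕ → ℂ, B.o ψ =
        ∑ i ∈ Finset.range (Nat.card E), b i • PW e R (l ^ i) 1 := by
      refine ⟨fun i => ∑ s : E, c s * ((Nat.card E : ℂ) * ((FX R s).card : ℂ))⁻¹ *
        (starRingEnd ℂ) (ev l s ^ i), ?_⟩
      rw [hc]
      have h3 : ∀ s : E, c s • e R s = ∑ i ∈ Finset.range (Nat.card E),
          (c s * ((Nat.card E : ℂ) * ((FX R s).card : ℂ))⁻¹ *
            (starRingEnd ℂ) (ev l s ^ i)) • PW e R (l ^ i) 1 := by
        intro s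
        have h4 := Axd_e (e := e) (R := R) hR l hl s
        have h5 : ((Nat.card E : ℂ) * ((FX R s).card : ℂ)) ≠ 0 :=
          mul_ne_zero hfE (Nat.cast_ne_zero.2 (Finset.card_pos.2 ⟨1, one_mem_FX R s⟩).ne')
        have h6 : e R s = ((Nat.card E : ℂ) * ((FX R s).card : ℂ))⁻¹ •
            ∑ i ∈ Finset.range (Nat.card E), (starRingEnd ℂ) (ev l s ^ i) •
              PW e R (l ^ i) 1 := by
          rw [← h4, smul_smul, inv_mul_cancel₀ h5, one_smul]
        conv_lhs => rw [h6]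
        rw [smul_smul, Finset.smul_sum]
        exact Finset.sum_congr rfl fun i _ => smul_smul _ _ _
      rw [Finset.sum_congr rfl fun s _ => h3 s, Finset.sum_comm]
      refine Finset.sum_congr rfl fun i _ => ?_
      rw [← Finset.sum_smul]
    have h3 : ∀ χ ∈ I1 B R, (Nat.card R : ℂ) * (inner ℂ (B.o χ) (B.o ψ) : ℂ) =
        ∑ i ∈ Finset.range (Nat.card E), b i * (m i χ : ℂ) := by
      intro χ hχ
      rw [hb, inner_sum, Finset.mul_sum]
      refine Finset.sum_congr rfl fun i _ => ?_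
      obtain ⟨hlev, hcc⟩ := (Finset.mem_filter.1 hχ).2
      have h4 : ∀ z ∈ R, B.dd χ z = B.dd χ 1 := by
        intro z hz
        have h5 := Frb.dd_central B (χ := χ) (z := z) (v := 1) (by rw [hlev]; exact hz)
        rw [mul_one, hcc z hz, one_smul] at h5
        exact h5
      have h5 := ip_PW (e := e) B (B.dd χ) (l ^ i) h4
      rw [hm1 i χ hχ, B.dd_one] at h5
      rw [inner_smul_right, h5]
      ring
    have hRc : (Nat.card R : ℂ) ≠ 0 := Nat.cast_ne_zero.2 Nat.card_pos.ne'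
    refine mul_left_cancel₀ hRc ?_
    rw [mul_zero, Finset.mul_sum]
    have h4 : ∀ χ ∈ I1 B R, (Nat.card R : ℂ) * (a χ * (inner ℂ (B.o χ) (B.o ψ) : ℂ)) =
        ∑ i ∈ Finset.range (Nat.card E), b i * (a χ * (m i χ : ℂ)) := by
      intro χ hχ
      rw [mul_left_comm, h3 χ hχ, Finset.mul_sum]
      exact Finset.sum_congr rfl fun i _ => by ring
    rw [Finset.sum_congr rfl h4, Finset.sum_comm]
    refine Finset.sum_eq_zero fun i hi => ?_
    rw [← Finset.mul_sum]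
    have h5 : ∑ χ ∈ I1 B R, a χ * (m i χ : ℂ) = ∑ χ, a χ * (m i χ : ℂ) :=
      Finset.sum_subset (Finset.subset_univ _) fun χ _ hχ => by
        rw [hm0 i χ hχ, Int.cast_zero, mul_zero]
    rw [h5, h1 i (by have := Finset.mem_range.1 hi; omega), mul_zero]

end Pool.Agent.KCK
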