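import Pool.Agent.KCK.Axd

/-! The abstract theorem for a block system with a splitting. -/

namespace Pool.Agent.KCK

open Classical
open scoped Pointwise
open Pool.Agent.MSy Pool.Agent.Isk

section Grp

variable {D E : Type} [CommGroup D] [Fintype D] [CommGroup E] [Fintype E]
    [MulDistribMulAction E D]

theorem fx_bound {D₁ : Subgroup D} (h1 : D₁ ≠ ⊥)
    (st : ∀ (t : E) (v : D), v ∈ D₁ → t • v ∈ D₁)
    (free : ∀ (t : E) (v : D), v ∈ D₁ → v ≠ 1 → t • v = v → t = 1) (s : E) (hs : s ≠ 1) :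
    (Nat.card E + 1) * fx D s ≤ Nat.card D := by
  obtain ⟨a, ha, ha1⟩ : ∃ a ∈ D₁, a ≠ 1 := by
    by_contra hcon
    push Not at hcon
    exact h1 ((Subgroup.eq_bot_iff_forall _).2 hcon)
  have h2 : Nat.card E + 1 ≤ Nat.card D₁ := by
    have h3 : Nat.card (Option E) ≤ Nat.card D₁ := by
      refine Nat.card_le_card_of_injective (fun x : Option E => match x with
        | none => (1 : D₁)
        | some t => ⟨t • a, st t a ha⟩) ?_
      rintro (_ | t) (_ | t') h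
      · rfl
      · exfalso
        have h4 : t' • a = 1 := (congrArg Subtype.val h).symm
        exact ha1 ((smul_eq_iff_eq_inv_smul t').1 h4 |>.trans (smul_one _))
      · exfalso
        have h4 : t • a = 1 := congrArg Subtype.val h
        exact ha1 ((smul_eq_iff_eq_inv_smul t).1 h4 |>.trans (smul_one _))
      · have h4 : t • a = t' • a := congrArg Subtype.val h
        have h5 : (t'⁻¹ * t) • a = a := by rw [mul_smul, h4, inv_smul_smul]
        rw [inv_mul_eq_one.1 (free _ a ha ha1 h5)]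
    rwa [Nat.card_eq_fintype_card, Fintype.card_option, ← Nat.card_eq_fintype_card] at h3
  have h3 : Nat.card D₁ * fx D s ≤ Nat.card D := by
    unfold fx
    rw [← Nat.card_prod]
    refine Nat.card_le_card_of_injective (fun x => (x.1 : D) * (x.2 : D)) ?_
    rintro ⟨b, v⟩ ⟨b', v'⟩ h
    have h4 : (b : D) * (v : D) = (b' : D) * (v' : D) := h
    have h5 : (b' : D)⁻¹ * (b : D) = (v' : D) * (v : D)⁻¹ := by
      rw [inv_mul_eq_iff_eq_mul, ← mul_assoc, ← h4, mul_inv_cancel_right]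
    have h6 : s • ((b' : D)⁻¹ * (b : D)) = (b' : D)⁻¹ * (b : D) := by
      rw [h5, smul_mul', smul_inv', v.2, v'.2]
    have h7 : (b' : D)⁻¹ * (b : D) = 1 := by
      by_contra hne
      exact hs (free s _ (D₁.mul_mem (D₁.inv_mem b'.2) b.2) hne h6)
    have h8 : (b' : D) = b := inv_mul_eq_one.1 h7
    rw [h7] at h5
    have h9 : (v' : D) = v := mul_inv_eq_one.1 h5.symm
    exact Prod.ext (Subtype.ext h8.symm) (Subtype.ext h9.symm)
  exact (Nat.mul_le_mul_right _ h2).trans h3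

end Grp

variable {p : ℕ} {D E Ω V : Type} [CommGroup D] [Fintype D] [CommGroup E] [Fintype E]
    [MulDistribMulAction E D] [Fintype Ω] [NormedAddCommGroup V] [InnerProductSpace ℂ V]
    {B : BSys p D E Ω V}

/-- The family, level `R`. -/
theorem Ax_hy [IsCyclic E] {D₁ D₂ : Subgroup D} (h : Hy B D₁ D₂) {R : Subgroup D}
    (hR : (EE E R : Subgroup E) = ⊤) :
    ∃ (N : ℕ) (n : Fin N → Ω → ℤ),
      (∀ i χ, n i χ ≠ 0 → χ ∈ I1 B R) ∧
      (∀ i, ∀ v, v ∉ R → ∑ χ, (n i χ : ℂ) • B.dd χ v = 0) ∧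
      (Nat.card R : ℤ) * ∑ i, ∑ χ, n i χ ^ 2 ≤ 2 * (Nat.card D : ℤ) ∧
      ∀ a : Ω → ℂ, (∀ i j, i ≠ j → ∑ χ, a χ * (n i χ : ℂ) = 0 ∨
          ∑ χ, a χ * (n j χ : ℂ) = 0) →
        ∀ ψ, B.lev ψ = R → ∑ χ ∈ I1 B R, a χ * (inner ℂ (B.o χ) (B.o ψ) : ℂ) = 0 := by
  obtain ⟨e, F⟩ := exists_frame h
  refine Ax_cyc (F.lv R) hR ?_ (fx_bound h.ne h.st₁ h.free)
  rw [h.dim R, hR]
  exact Nat.card_congr (Equiv.Set.univ E)

/-- The family, level `1`. -/
theorem Ax_bot [IsCyclic E] {D₁ D₂ : Subgroup D} (h : Hy B D₁ D₂) :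
    ∃ (N : ℕ) (n : Fin N → {χ : Ω // B.lev χ = ⊥} → ℤ),
      (∀ i, ∀ v : D, v ≠ 1 → ∑ χ, (n i χ : ℂ) • B.dd χ.1 v = 0) ∧
      ∑ i, ∑ χ, n i χ ^ 2 ≤ 2 * (Nat.card D : ℤ) ∧
      ∀ a : {χ : Ω // B.lev χ = ⊥} → ℂ, (∀ i j, i ≠ j → ∑ χ, a χ * (n i χ : ℂ) = 0 ∨
          ∑ χ, a χ * (n j χ : ℂ) = 0) →
        ∀ ψ, B.lev ψ = ⊥ → ∑ χ, a χ * (inner ℂ (B.o χ.1) (B.o ψ) : ℂ) = 0 := by
  have hR : (EE E (⊥ : Subgroup D) : Subgroup E) = ⊤ := by
    rw [eq_top_iff]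
    intro t _ v hv
    rw [(Subgroup.mem_bot).1 hv, smul_one]
  obtain ⟨N, n, h1, h2, h3, h4⟩ := Ax_hy h hR
  have hI : ∀ χ : Ω, χ ∈ I1 B (⊥ : Subgroup D) ↔ B.lev χ = ⊥ := by
    intro χ
    rw [I1, Finset.mem_filter]
    constructor
    · exact fun h => h.2.1
    · intro h
      refine ⟨Finset.mem_univ _, h, fun z hz => ?_⟩
      rw [(Subgroup.mem_bot).1 hz, B.cc_one]
  -- sums over the subtype
  have hsub : ∀ {W : Type} [AddCommMonoid W] (g : Ω → W), (∀ χ, B.lev χ ≠ ⊥ → g χ = 0) →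
      ∑ χ : {χ : Ω // B.lev χ = ⊥}, g χ.1 = ∑ χ, g χ := by
    intro W _ g hg
    have h5 := Finset.sum_subtype (F := inferInstanceAs (Fintype {χ : Ω // B.lev χ = ⊥}))
      (p := fun χ : Ω => B.lev χ = ⊥) (Finset.univ.filter fun χ : Ω => B.lev χ = ⊥)
      (fun χ => by simp) g
    rw [← h5]
    exact Finset.sum_subset (Finset.filter_subset _ _) fun χ _ hχ =>
      hg χ fun hc => hχ (Finset.mem_filter.2 ⟨Finset.mem_univ _, hc⟩)
  have hn0 : ∀ i χ, B.lev χ ≠ ⊥ → n i χ = 0 := by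
    intro i χ hχ
    by_contra hne
    exact hχ ((hI χ).1 (h1 i χ hne))
  refine ⟨N, fun i χ => n i χ.1, ?_, ?_, ?_⟩
  · intro i v hv
    rw [hsub (fun χ => (n i χ : ℂ) • B.dd χ v) fun χ hχ => by
      rw [hn0 i χ hχ, Int.cast_zero, zero_smul]]
    exact h2 i v fun hc => hv ((Subgroup.mem_bot).1 hc)
  · rw [Subgroup.card_bot, Nat.cast_one, one_mul] at h3
    rw [Finset.sum_congr rfl fun i _ => hsub (fun χ => n i χ ^ 2) fun χ hχ => by
      rw [hn0 i χ hχ]; rfl]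
    exact h3
  · intro a ha ψ hψ
    let a' : Ω → ℂ := fun χ => if hχ : B.lev χ = ⊥ then a ⟨χ, hχ⟩ else 0
    have ha' : ∀ χ : {χ : Ω // B.lev χ = ⊥}, a' χ.1 = a χ := fun χ => dif_pos χ.2
    have h5 : ∀ i, ∑ χ, a' χ * (n i χ : ℂ) =
        ∑ χ : {χ : Ω // B.lev χ = ⊥}, a χ * (n i χ.1 : ℂ) := by
      intro i
      rw [← hsub (fun χ => a' χ * (n i χ : ℂ)) fun χ hχ => by
        rw [hn0 i χ hχ, Int.cast_zero, mul_zero]]
      exact Finset.sum_congr rfl fun χ _ => by rw [ha']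
    have h6 := h4 a' (fun i j hij => by rw [h5, h5]; exact ha i j hij) ψ hψ
    have h7 : I1 B (⊥ : Subgroup D) = Finset.univ.filter fun χ : Ω => B.lev χ = ⊥ := by
      ext χ
      rw [hI, Finset.mem_filter]
      simp
    have h8 := Finset.sum_subtype (F := inferInstanceAs (Fintype {χ : Ω // B.lev χ = ⊥}))
      (p := fun χ : Ω => B.lev χ = ⊥) (I1 B (⊥ : Subgroup D))
      (fun χ => hI χ) (fun χ => a' χ * (inner ℂ (B.o χ) (B.o ψ) : ℂ))
    rw [h8] at h6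
    rw [← h6]
    exact Finset.sum_congr rfl fun χ _ => by rw [ha']

end Pool.Agent.KCK
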