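import Pool.Agent.KCK.Tr
import Pool.Agent.KCK.Abn

/-! The closure of the inequalities for cyclic, free and abelian-by-cyclic actions under quotients which
are `p`-solvable with factors of rank at most three. -/

set_option autoImplicit false

namespace Pool.Agent.KCK

open Pool.Agent.KB Pool.Agent.KB.ContrAux Pool.Agent.KBL Pool.Agent.KBZ Pool.Agent.KBU
  Pool.Agent.KBQ Pool.Agent.KBY Pool.Agent.KBD Pool.Agent.BrZ

private theorem Clo_nrm {N K G : Type} [Group N] [Group K] [Group G] {ι : N →* G} (h : Nrm ι)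
    (j : K →* G) (hj : Function.Injective j) (κ : N →* K) (hjκ : ∀ x, j (κ x) = ι x) : Nrm κ where
  inj := by
    intro a b hab
    apply h.inj
    rw [← hjκ, ← hjκ, hab]
  nrm k x := by
    obtain ⟨y, hy⟩ := h.nrm (j k) x
    refine ⟨y, hj ?_⟩
    rw [hjκ, hy, ← hjκ, map_mul, map_mul, map_inv]

/-- The closure from a bound for the blocks of the groups between, with the embedding in `G`. -/
private theorem Clo_up (p : ℕ) (hp : p.Prime) (𝔪 : Ideal AInt) (h𝔪 : 𝔪.IsMaximal)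
    (hp𝔪 : (p : AInt) ∈ 𝔪) {N G : Type} [Group N] [Fintype N] [Group G] [Fintype G] (θ : N → ℂ)
    (hθ : θ ∈ Irr N) (s n : ℕ) (hs : s ≤ 3 ∨ 12 * 25 ^ (s ^ 2) ≤ p + 1) {ι : N →* G}
    (h : Nrm ι) (hser : Ser p s n ι.range)
    (hB : ∀ (K : Type) [Group K] [Fintype K] (j : K →* G) (κ : N →* K), Function.Injective j →
      (∀ x, j (κ x) = ι x) → ∀ hn : Nrm κ, ¬ p ∣ κ.range.index →
      ∀ ψ ∈ Irr K, Over κ ψ θ → (∀ g : K, SameBlock 𝔪 θ (tw hn g θ)) →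
      (block 𝔪 ψ).ncard ≤ p ^ defect p (block 𝔪 ψ))
    (χ : G → ℂ) (hχ : χ ∈ Irr G) (hov : Over ι χ θ) :
    (block 𝔪 χ).ncard ≤ p ^ defect p (block 𝔪 χ) := by
  have h1 := FinB_main p hp 𝔪 h𝔪 hp𝔪 s 1 1 le_rfl (Cls_kvb p hp 𝔪 h𝔪 hp𝔪 s hs) θ hθ n h hser
    (fun K _ _ j κ hj hjκ hidx χ hχ hov => by
      rw [one_mul]
      have h : Nrm κ := Clo_nrm h j hj κ hjκ
      obtain ⟨κ', ψ, hκ, hn, hψ, hov', hk, hdef⟩ := FRe_main h p hp 𝔪 h𝔪 hp𝔪 χ hχ θ hθ hov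
      let _ : Fintype (StB 𝔪 h θ) := Fintype.ofFinite _
      have htw : ∀ t : StB 𝔪 h θ, tw hn t θ = tw h (t : K) θ := by
        intro t
        funext x
        rw [tw_apply, tw_apply]
        congr 1
        apply h.inj
        rw [h.cg_spec, ← hκ, hn.cg_spec, ← hκ]
        rfl
      have hidx' : ¬ p ∣ κ'.range.index := by
        intro hdvd
        apply hidx
        have h1 := Subgroup.card_mul_index κ'.range
        have h2 := Subgroup.card_mul_index κ.range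
        have h3 := Subgroup.card_mul_index (StB 𝔪 h θ)
        have h4 : Nat.card κ'.range = Nat.card N :=
          Nat.card_congr (MonoidHom.ofInjective hn.inj).symm.toEquiv
        have h5 : Nat.card κ.range = Nat.card N :=
          Nat.card_congr (MonoidHom.ofInjective h.inj).symm.toEquiv
        have h6 : Nat.card N * κ.range.index =
            Nat.card N * (κ'.range.index * (StB 𝔪 h θ).index) := by
          rw [← mul_assoc, ← h4, h1, h3, ← h2, h5, h4]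
        have h7 : κ.range.index = κ'.range.index * (StB 𝔪 h θ).index :=
          Nat.eq_of_mul_eq_mul_left Nat.card_pos h6
        rw [h7]
        exact hdvd.trans (dvd_mul_right _ _)
      have h1 := hB (StB 𝔪 h θ) (j.comp (StB 𝔪 h θ).subtype) κ'
        (hj.comp (Subgroup.subtype_injective _)) (fun x => by
          rw [MonoidHom.comp_apply, Subgroup.coe_subtype, hκ, hjκ])
        hn hidx' ψ hψ hov' (fun t => by
          rw [htw t]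
          exact (StB_mem 𝔪 h θ t).1 t.2)
      calc (block 𝔪 χ).ncard ≤ (block 𝔪 ψ).ncard := hk
        _ ≤ p ^ defect p (block 𝔪 ψ) := h1
        _ ≤ p ^ defect p (block 𝔪 χ) := Nat.pow_le_pow_right hp.pos hdef)
    χ hχ hov
  rwa [one_pow, one_mul, one_mul] at h1

/-- Powers of a conjugate. -/
private theorem Clo_zpw {G : Type} [Group G] (a u x : G) (h : a * u * a⁻¹ = x) (y : G) :
    a * y * a⁻¹ ∈ Subgroup.zpowers x ↔ y ∈ Subgroup.zpowers u := by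
  rw [Subgroup.mem_zpowers_iff, Subgroup.mem_zpowers_iff]
  constructor
  · rintro ⟨k, hk⟩
    refine ⟨k, ?_⟩
    rw [← h, conj_zpow] at hk
    exact mul_left_cancel (mul_right_cancel hk)
  · rintro ⟨k, hk⟩
    exact ⟨k, by rw [← h, conj_zpow, hk]⟩

private theorem Clo_map {K G : Type} [Group K] [Group G] (j : K →* G) (hj : Function.Injective j)
    (u y : K) : j y ∈ Subgroup.zpowers (j u) ↔ y ∈ Subgroup.zpowers u := by
  rw [Subgroup.mem_zpowers_iff, Subgroup.mem_zpowers_iff]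
  constructor
  · rintro ⟨k, hk⟩
    exact ⟨k, hj (by rw [map_zpow, hk])⟩
  · rintro ⟨k, hk⟩
    exact ⟨k, by rw [← map_zpow, hk]⟩

/-- **The closure, cyclic action.** -/
theorem Clo_pp (hK : ThmK) (p : ℕ) (hp : p.Prime) (𝔪 : Ideal AInt) (h𝔪 : 𝔪.IsMaximal)
    (hp𝔪 : (p : AInt) ∈ 𝔪) {N H G : Type} [Group N] [Fintype N]
    [Group H] [Fintype H] [Group G] [Fintype G] (θ : N → ℂ) (hθ : θ ∈ Irr N) (D : Subgroup N)
    (ι₀ : H →* N) (ζ : H → ℂ) (hA : DefP p 𝔪 θ D ι₀ ζ) (s n : ℕ)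
    (hs : s ≤ 3 ∨ 12 * 25 ^ (s ^ 2) ≤ p + 1) {ι : N →* G}
    (h : Nrm ι) (hser : Ser p s n ι.range)
    (u : N) (hu : u ∈ D) (hu1 : u ≠ 1) (hcu : ∀ a ∈ D, a * u = u * a)
    (hcom : ∀ a ∈ D, ∀ b ∈ D, a * b * a⁻¹ * b⁻¹ ∈ Subgroup.zpowers u)
    (r c : ℕ) (hr : r.Prime) (τ : G) (hτ : ∀ x, x ∈ D.map ι ↔ τ * x * τ⁻¹ ∈ D.map ι)
    (h1 : ∀ x ∈ D, τ ^ (r ^ c) * ι x * (τ ^ (r ^ c))⁻¹ * (ι x)⁻¹ ∈ Subgroup.zpowers (ι u))
    (h2 : ∀ g ∈ ExS 𝔪 ι D ι₀ ζ, g * ι u = ι u * g → ∃ k : ℤ, ∀ x ∈ D,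
      g * ι x * g⁻¹ * (τ ^ k * ι x * (τ ^ k)⁻¹)⁻¹ ∈ Subgroup.zpowers (ι u))
    (χ : G → ℂ) (hχ : χ ∈ Irr G) (hov : Over ι χ θ) :
    (block 𝔪 χ).ncard ≤ p ^ defect p (block 𝔪 χ) := by
  refine Clo_up p hp 𝔪 h𝔪 hp𝔪 θ hθ s n hs h hser
    (fun K _ _ j κ hj hjκ hn hidx ψ hψ hov' hst => ?_) χ hχ hov
  obtain ⟨H', i1, i2, ι', η, hB, m, hm, hex⟩ := Tr_main hn j hj hjκ p hp 𝔪 h𝔪 hp𝔪 ψ hψ θ hθ hov'
    hst hidx D ι₀ ζ hA
  obtain ⟨α, hα⟩ := Prm_ex h.inj D τ hτ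
  have hcj : ∀ x : N, ι (m * x * m⁻¹) = ι m * ι x * (ι m)⁻¹ := fun x => by
    rw [map_mul, map_mul, map_inv]
  have hjm : ∀ x : N, j (κ (m * x * m⁻¹)) = ι m * ι x * (ι m)⁻¹ := fun x => by rw [hjκ, hcj]
  have hmem : ∀ x : D, κ (m * x * m⁻¹) ∈ D.map κ := fun x =>
    Subgroup.mem_map_of_mem κ ((hm x).1 x.2)
  have hzp : ∀ y : K, ∀ z : G, j y = ι m * z * (ι m)⁻¹ →
      (y ∈ Subgroup.zpowers (κ (m * u * m⁻¹)) ↔ z ∈ Subgroup.zpowers (ι u)) := by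
    intro y z hyz
    rw [← Clo_map j hj, hyz, hjm, Clo_zpw (ι m) (ι u) _ rfl]
  refine Fin_ppX hK p hp 𝔪 h𝔪 hp𝔪 ψ hψ (D.map κ) ι' η hB (κ (m * u * m⁻¹))
    (Subgroup.mem_map_of_mem κ ((hm u).1 hu)) ?_ ?_ ?_
    (fun x : D => ⟨κ (m * x * m⁻¹), hmem x⟩) ?_ α r c hr ?_ ?_
  · intro h3
    apply hu1
    have h4 : m * u * m⁻¹ = 1 := hn.inj (by rw [h3, map_one])
    have h5 : u = m⁻¹ * (m * u * m⁻¹) * m := by group
    rw [h5, h4]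
    group
  · rintro _ ⟨a, ha, rfl⟩
    rw [← map_mul, ← map_mul]
    congr 1
    have h3 : m⁻¹ * a * m ∈ D := by
      rw [hm]
      have h4 : m * (m⁻¹ * a * m) * m⁻¹ = a := by group
      rw [h4]
      exact ha
    have h4 := hcu _ h3
    calc a * (m * u * m⁻¹) = m * ((m⁻¹ * a * m) * u) * m⁻¹ := by group
      _ = m * (u * (m⁻¹ * a * m)) * m⁻¹ := by rw [h4]
      _ = m * u * m⁻¹ * a := by group
  · rintro _ ⟨a', ha', rfl⟩ _ ⟨b', hb', rfl⟩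
    have hin : ∀ y ∈ D, ∃ x ∈ D, y = m * x * m⁻¹ := by
      intro y hy
      have h4 : m * (m⁻¹ * y * m) * m⁻¹ = y := by group
      exact ⟨m⁻¹ * y * m, (hm _).2 (by rwa [h4]), h4.symm⟩
    obtain ⟨a, ha, rfl⟩ := hin a' ha'
    obtain ⟨b, hb, rfl⟩ := hin b' hb'
    rw [hzp _ (ι (a * b * a⁻¹ * b⁻¹)) ?_]
    · exact (Clo_map ι h.inj u _).2 (hcom a ha b hb)
    · rw [map_mul j, map_mul j, map_mul j, map_inv j, map_inv j, hjm, hjm, map_mul ι, map_mul ι,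
        map_mul ι, map_inv ι, map_inv ι]
      group
  · rintro ⟨_, y, hy, rfl⟩
    have h3 : m⁻¹ * y * m ∈ D := by
      rw [hm]
      have h4 : m * (m⁻¹ * y * m) * m⁻¹ = y := by group
      rwa [h4]
    refine ⟨⟨m⁻¹ * y * m, h3⟩, Subtype.ext ?_⟩
    show κ (m * (m⁻¹ * y * m) * m⁻¹) = κ y
    congr 1
    group
  · intro x
    show κ (m * ((α ^ (r ^ c)) x : D) * m⁻¹) * (κ (m * x * m⁻¹))⁻¹ ∈ _
    have h3 := hα ((r ^ c : ℕ) : ℤ) x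
    rw [zpow_natCast, zpow_natCast] at h3
    rw [hzp _ (τ ^ (r ^ c) * ι x * (τ ^ (r ^ c))⁻¹ * (ι x)⁻¹) ?_]
    · exact h1 x x.2
    · rw [map_mul j, map_inv j, hjm, hjm, h3]
      group
  · intro k hk hku
    obtain ⟨g, hg, hg2⟩ := hex k hk
    have h3 : g * ι u = ι u * g := by
      have h4 := hg2 u hu
      have h5 : k * κ (m * u * m⁻¹) * k⁻¹ = κ (m * u * m⁻¹) := by
        rw [hku, mul_inv_cancel_right]
      rw [h5, hjm] at h4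
      exact (mul_inv_eq_iff_eq_mul.1 (mul_left_cancel (mul_right_cancel h4)).symm)
    obtain ⟨e, he⟩ := h2 g hg h3
    refine ⟨e, fun x => ?_⟩
    show k * κ (m * x * m⁻¹) * k⁻¹ * (κ (m * ((α ^ e) x : D) * m⁻¹))⁻¹ ∈ _
    rw [hzp _ (g * ι x * g⁻¹ * (τ ^ e * ι x * (τ ^ e)⁻¹)⁻¹) ?_]
    · exact he x x.2
    · rw [map_mul j, map_inv j, hjm, hg2 x x.2, hα]
      group

/-- **The closure, free action.** -/
theorem Clo_fr (p : ℕ) (hp : p.Prime) (𝔪 : Ideal AInt) (h𝔪 : 𝔪.IsMaximal)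
    (hp𝔪 : (p : AInt) ∈ 𝔪) {N H G : Type} [Group N] [Fintype N]
    [Group H] [Fintype H] [Group G] [Fintype G] (θ : N → ℂ) (hθ : θ ∈ Irr N) (D : Subgroup N)
    (ι₀ : H →* N) (ζ : H → ℂ) (hA : DefP p 𝔪 θ D ι₀ ζ) (s n : ℕ)
    (hs : s ≤ 3 ∨ 12 * 25 ^ (s ^ 2) ≤ p + 1) {ι : N →* G}
    (h : Nrm ι) (hser : Ser p s n ι.range)
    (u : N) (hu : u ∈ D) (hu1 : u ≠ 1) (hcu : ∀ a ∈ D, a * u = u * a)
    (hcom : ∀ a ∈ D, ∀ b ∈ D, a * b * a⁻¹ * b⁻¹ ∈ Subgroup.zpowers u)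
    (hfree : ∀ g ∈ ExS 𝔪 ι D ι₀ ζ, g * ι u = ι u * g → ∀ v ∈ D, v ∉ Subgroup.zpowers u →
      g * ι v * g⁻¹ * (ι v)⁻¹ ∈ Subgroup.zpowers (ι u) →
      ∀ x ∈ D, g * ι x * g⁻¹ * (ι x)⁻¹ ∈ Subgroup.zpowers (ι u))
    (χ : G → ℂ) (hχ : χ ∈ Irr G) (hov : Over ι χ θ) :
    (block 𝔪 χ).ncard ≤ p ^ defect p (block 𝔪 χ) := by
  refine Clo_up p hp 𝔪 h𝔪 hp𝔪 θ hθ s n hs h hser
    (fun K _ _ j κ hj hjκ hn hidx ψ hψ hov' hst => ?_) χ hχ hov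
  obtain ⟨H', i1, i2, ι', η, hB, m, hm, hex⟩ := Tr_main hn j hj hjκ p hp 𝔪 h𝔪 hp𝔪 ψ hψ θ hθ hov'
    hst hidx D ι₀ ζ hA
  have hcj : ∀ x : N, ι (m * x * m⁻¹) = ι m * ι x * (ι m)⁻¹ := fun x => by
    rw [map_mul, map_mul, map_inv]
  have hjm : ∀ x : N, j (κ (m * x * m⁻¹)) = ι m * ι x * (ι m)⁻¹ := fun x => by rw [hjκ, hcj]
  have hin : ∀ y ∈ D, m⁻¹ * y * m ∈ D := by
    intro y hy
    rw [hm]
    have h4 : m * (m⁻¹ * y * m) * m⁻¹ = y := by group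
    rwa [h4]
  have hzp : ∀ y : K, ∀ z : G, j y = ι m * z * (ι m)⁻¹ →
      (y ∈ Subgroup.zpowers (κ (m * u * m⁻¹)) ↔ z ∈ Subgroup.zpowers (ι u)) := by
    intro y z hyz
    rw [← Clo_map j hj, hyz, hjm, Clo_zpw (ι m) (ι u) _ rfl]
  have hrep : ∀ y ∈ D.map κ, ∃ x ∈ D, y = κ (m * x * m⁻¹) := by
    rintro _ ⟨y, hy, rfl⟩
    refine ⟨m⁻¹ * y * m, hin y hy, ?_⟩
    congr 1
    group
  refine Fin_fr p hp 𝔪 h𝔪 hp𝔪 ψ hψ (D.map κ) ι' η hB (κ (m * u * m⁻¹))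
    (Subgroup.mem_map_of_mem κ ((hm u).1 hu)) ?_ ?_ ?_ ?_
  · intro h3
    apply hu1
    have h4 : m * u * m⁻¹ = 1 := hn.inj (by rw [h3, map_one])
    have h5 : u = m⁻¹ * (m * u * m⁻¹) * m := by group
    rw [h5, h4]
    group
  · intro y hy
    obtain ⟨a, ha, rfl⟩ := hrep y hy
    rw [← map_mul, ← map_mul]
    congr 1
    have h4 := hcu a ha
    calc m * a * m⁻¹ * (m * u * m⁻¹) = m * (a * u) * m⁻¹ := by group
      _ = m * (u * a) * m⁻¹ := by rw [h4]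
      _ = m * u * m⁻¹ * (m * a * m⁻¹) := by group
  · intro y hy z hz
    obtain ⟨a, ha, rfl⟩ := hrep y hy
    obtain ⟨b, hb, rfl⟩ := hrep z hz
    rw [hzp _ (ι (a * b * a⁻¹ * b⁻¹)) ?_]
    · exact (Clo_map ι h.inj u _).2 (hcom a ha b hb)
    · rw [map_mul j, map_mul j, map_mul j, map_inv j, map_inv j, hjm, hjm, map_mul ι, map_mul ι,
        map_mul ι, map_inv ι, map_inv ι]
      group
  · intro k hk hku y hy hyu hky z hz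
    obtain ⟨v, hv, rfl⟩ := hrep y hy
    obtain ⟨x, hx, rfl⟩ := hrep z hz
    obtain ⟨g, hg, hg2⟩ := hex k hk
    have h3 : g * ι u = ι u * g := by
      have h4 := hg2 u hu
      have h5 : k * κ (m * u * m⁻¹) * k⁻¹ = κ (m * u * m⁻¹) := by
        rw [hku, mul_inv_cancel_right]
      rw [h5, hjm] at h4
      exact (mul_inv_eq_iff_eq_mul.1 (mul_left_cancel (mul_right_cancel h4)).symm)
    have hact : ∀ w ∈ D, j (k * κ (m * w * m⁻¹) * k⁻¹ * (κ (m * w * m⁻¹))⁻¹) =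
        ι m * (g * ι w * g⁻¹ * (ι w)⁻¹) * (ι m)⁻¹ := by
      intro w hw
      rw [map_mul j, map_inv j, hjm, hg2 w hw]
      group
    have h4 : v ∉ Subgroup.zpowers u := by
      intro h5
      apply hyu
      rw [hzp _ (ι v) (hjm v)]
      exact (Clo_map ι h.inj u v).2 h5
    exact (hzp _ _ (hact x hx)).2 (hfree g hg h3 v hv h4 ((hzp _ _ (hact v hv)).1 hky) x hx)

/-- **The closure, abelian defect groups with an abelian-by-cyclic action.** -/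
theorem Clo_ab (hK : ThmK) (p : ℕ) (hp : p.Prime) (𝔪 : Ideal AInt) (h𝔪 : 𝔪.IsMaximal)
    (hp𝔪 : (p : AInt) ∈ 𝔪) {N H G : Type} [Group N] [Fintype N]
    [Group H] [Fintype H] [Group G] [Fintype G] (θ : N → ℂ) (hθ : θ ∈ Irr N) (D : Subgroup N)
    (ι₀ : H →* N) (ζ : H → ℂ) (hA : DefP p 𝔪 θ D ι₀ ζ) (s n : ℕ)
    (hs : s ≤ 3 ∨ 12 * 25 ^ (s ^ 2) ≤ p + 1) {ι : N →* G}
    (h : Nrm ι) (hser : Ser p s n ι.range)
    (hab : ∀ a ∈ D, ∀ b ∈ D, a * b = b * a)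
    (S : Subgroup G) (hS : ∀ t ∈ S, t ∈ ExS 𝔪 ι D ι₀ ζ)
    (hSn : ∀ t ∈ ExS 𝔪 ι D ι₀ ζ, ∀ a ∈ S, t * a * t⁻¹ ∈ S)
    (hScom : ∀ a ∈ S, ∀ b ∈ S, ∀ x ∈ D, a * b * a⁻¹ * b⁻¹ * ι x = ι x * (a * b * a⁻¹ * b⁻¹))
    (r c : ℕ) (hr : r.Prime) (τ : G) (hτ : τ ∈ ExS 𝔪 ι D ι₀ ζ) (hτr : τ ^ (r ^ c) ∈ S)
    (hgen : ∀ t ∈ ExS 𝔪 ι D ι₀ ζ, ∃ k : ℤ, t * τ ^ k ∈ S)
    (χ : G → ℂ) (hχ : χ ∈ Irr G) (hov : Over ι χ θ) :
    (block 𝔪 χ).ncard ≤ p ^ defect p (block 𝔪 χ) := by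
  refine Clo_up p hp 𝔪 h𝔪 hp𝔪 θ hθ s n hs h hser
    (fun K _ _ j κ hj hjκ hn hidx ψ hψ hov' hst => ?_) χ hχ hov
  obtain ⟨H', i1, i2, ι', η, hB, m, hm, hex⟩ := Tr_main hn j hj hjκ p hp 𝔪 h𝔪 hp𝔪 ψ hψ θ hθ hov'
    hst hidx D ι₀ ζ hA
  obtain ⟨T, hT⟩ := UCnt_sub 𝔪 h D ι₀ hA.cen ζ
  have hcj : ∀ x : N, ι (m * x * m⁻¹) = ι m * ι x * (ι m)⁻¹ := fun x => by
    rw [map_mul, map_mul, map_inv]
  have hin : ∀ y ∈ D, m⁻¹ * y * m ∈ D := by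
    intro y hy
    rw [hm]
    have h4 : m * (m⁻¹ * y * m) * m⁻¹ = y := by group
    rwa [h4]
  obtain ⟨f, hf⟩ : ∃ f : K →* G, ∀ k, f k = (ι m)⁻¹ * j k * ι m :=
    ⟨(MulAut.conj (ι m)⁻¹).toMonoidHom.comp j, fun k => by simp⟩
  have hfx : ∀ x : N, f (κ (m * x * m⁻¹)) = ι x := by
    intro x
    rw [hf, hjκ, hcj]
    group
  have hrep : ∀ y ∈ D.map κ, ∃ x ∈ D, y = κ (m * x * m⁻¹) := by
    rintro _ ⟨y, hy, rfl⟩
    refine ⟨m⁻¹ * y * m, hin y hy, ?_⟩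
    congr 1
    group
  refine Abn_main hK p hp 𝔪 h𝔪 hp𝔪 ψ hψ (D.map κ) ι' η hB ?_ f ?_ (D.map ι) ?_ S ?_ ?_ τ
    (hSn τ hτ) ?_ r c hr hτr ?_
  · rintro _ ⟨a, ha, rfl⟩ _ ⟨b, hb, rfl⟩
    rw [← map_mul, hab a ha b hb, map_mul]
  · intro a b hab'
    rw [hf, hf] at hab'
    exact hj (mul_left_cancel (mul_right_cancel hab'))
  · intro y hy
    obtain ⟨x, hx, rfl⟩ := hrep y hy
    rw [hfx]
    exact Subgroup.mem_map_of_mem ι hx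
  · intro t ht x hx
    exact ((hS t ht).1 x).1 hx
  · rintro a ha b hb _ ⟨x, hx, rfl⟩
    exact hScom a ha b hb x hx
  · intro t ht
    have h3 : τ⁻¹ ∈ ExS 𝔪 ι D ι₀ ζ := (hT _).1 (T.inv_mem ((hT _).2 hτ))
    have h4 := hSn _ h3 t ht
    rwa [inv_inv] at h4
  · intro k hk
    obtain ⟨g, hg, hg2⟩ := hex k hk
    obtain ⟨a, ha⟩ := hgen g hg
    refine ⟨g * τ ^ a, ha, -a, fun y hy => ?_⟩
    obtain ⟨x, hx, rfl⟩ := hrep y hy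
    have h3 : g * τ ^ a * τ ^ (-a) = g := by group
    rw [h3, hfx, hf, hg2 x hx]
    group

end Pool.Agent.KCK
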