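import Pool.Agent.KBD.Dat

/-! The inertial quotient is cyclic of prime power order if all elements of the stabilizer act as powers
of one permutation. -/

set_option autoImplicit false

namespace Pool.Agent.KCK

open Pool.Agent.KB Pool.Agent.KB.ContrAux Pool.Agent.KBL Pool.Agent.KBZ Pool.Agent.KBU
  Pool.Agent.KBQ Pool.Agent.KBD

/-- A group `E` which acts faithfully on `D` as powers of a permutation `α` of a set which covers `D` is
cyclic, and of prime power order if `α` has prime power order on `D`. -/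
theorem Cyc_gen {X D E : Type} [Group D] [Group E] [MulDistribMulAction E D]
    (faith : ∀ t : E, (∀ v : D, t • v = v) → t = 1) (q : X → D) (hq : Function.Surjective q)
    (α : Equiv.Perm X) (r c : ℕ) (hr : r.Prime) (h1 : ∀ x, q ((α ^ (r ^ c)) x) = q x)
    (h2 : ∀ t : E, ∃ k : ℤ, ∀ x, t • q x = q ((α ^ k) x)) :
    IsCyclic E ∧ ∃ b : ℕ, Nat.card E = r ^ b := by
  classical
  let S : AddSubgroup ℤ :=
    { carrier := {k | ∃ t : E, ∀ x, t • q x = q ((α ^ k) x)}
      zero_mem' := ⟨1, fun x => by rw [one_smul, zpow_zero]; rfl⟩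
      add_mem' := by
        rintro a b ⟨s, hs⟩ ⟨t, ht⟩
        refine ⟨s * t, fun x => ?_⟩
        rw [mul_smul, ht, hs, zpow_add]
        rfl
      neg_mem' := by
        rintro a ⟨s, hs⟩
        refine ⟨s⁻¹, fun x => ?_⟩
        have h3 := hs ((α ^ (-a)) x)
        have h4 : (α ^ a) ((α ^ (-a)) x) = x := by
          rw [← Equiv.Perm.mul_apply, ← zpow_add, add_neg_cancel, zpow_zero]
          rfl
        rw [h4] at h3
        rw [← h3, inv_smul_smul] }
  have hS : ∀ k : ℤ, k ∈ S ↔ ∃ t : E, ∀ x, t • q x = q ((α ^ k) x) := fun _ => Iff.rfl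
  obtain ⟨m, hm⟩ := Int.subgroup_cyclic S
  have hmS : m ∈ S := by
    rw [hm]
    exact AddSubgroup.subset_closure (Set.mem_singleton m)
  obtain ⟨t₀, ht₀⟩ := (hS m).1 hmS
  have hnat : ∀ (j : ℕ) (x : X), t₀ ^ j • q x = q ((α ^ (m * j)) x) := by
    intro j
    induction j with
    | zero => intro x; simp
    | succ j ih =>
      intro x
      rw [pow_succ, mul_smul, ht₀, ih, ← Equiv.Perm.mul_apply, ← zpow_add]
      congr 3
      push_cast
      ring
  have hpow : ∀ (j : ℤ) (x : X), t₀ ^ j • q x = q ((α ^ (m * j)) x) := by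
    intro j x
    obtain ⟨j, rfl | rfl⟩ := j.eq_nat_or_neg
    · rw [zpow_natCast]
      exact hnat j x
    · have h3 := hnat j ((α ^ (m * (-(j : ℤ)))) x)
      have h4 : (α ^ (m * (j : ℤ))) ((α ^ (m * (-(j : ℤ)))) x) = x := by
        rw [← Equiv.Perm.mul_apply, ← zpow_add, mul_neg, add_neg_cancel, zpow_zero]
        rfl
      rw [h4] at h3
      rw [zpow_neg, zpow_natCast, ← h3, inv_smul_smul]
  have hgen : ∀ t : E, t ∈ Subgroup.zpowers t₀ := by
    intro t
    obtain ⟨k, hk⟩ := h2 t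
    have h3 : k ∈ S := (hS _).2 ⟨t, hk⟩
    rw [hm] at h3
    obtain ⟨j, hj⟩ := AddSubgroup.mem_closure_singleton.1 h3
    refine Subgroup.mem_zpowers_iff.2 ⟨j, ?_⟩
    have h4 : (t₀ ^ j)⁻¹ * t = 1 := by
      apply faith
      intro v
      obtain ⟨x, rfl⟩ := hq v
      have h6 := hpow j x
      have h7 : m * j = k := by
        rw [← hj, smul_eq_mul, mul_comm]
      rw [h7, ← hk x] at h6
      rw [mul_smul, ← h6, inv_smul_smul]
    exact inv_mul_eq_one.1 h4
  have hcyc : IsCyclic E := ⟨⟨t₀, hgen⟩⟩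
  refine ⟨hcyc, ?_⟩
  have hn : ∀ (k : ℤ) (x : X), q ((α ^ ((r ^ c : ℕ) * k : ℤ)) x) = q x := by
    have h5 : ∀ (k : ℕ) (x : X), q ((α ^ (((r ^ c : ℕ) : ℤ) * k)) x) = q x := by
      intro k
      induction k with
      | zero => intro x; simp
      | succ k ih =>
        intro x
        have h6 : ((r ^ c : ℕ) : ℤ) * ((k + 1 : ℕ) : ℤ) = ((r ^ c : ℕ) : ℤ) + ((r ^ c : ℕ) : ℤ) * k := by
          push_cast
          ring
        rw [h6, zpow_add, Equiv.Perm.mul_apply, zpow_natCast, h1, ih]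
    intro k x
    obtain ⟨k, rfl | rfl⟩ := k.eq_nat_or_neg
    · exact h5 k x
    · have h6 := h5 k ((α ^ (((r ^ c : ℕ) : ℤ) * (-(k : ℤ)))) x)
      have h7 : (α ^ (((r ^ c : ℕ) : ℤ) * (k : ℤ))) ((α ^ (((r ^ c : ℕ) : ℤ) * (-(k : ℤ)))) x) = x := by
        rw [← Equiv.Perm.mul_apply, ← zpow_add, mul_neg, add_neg_cancel, zpow_zero]
        rfl
      rw [h7] at h6
      exact h6.symm
  have h3 : t₀ ^ (r ^ c) = 1 := by
    apply faith
    intro v
    obtain ⟨x, rfl⟩ := hq v
    have h4 := hpow ((r ^ c : ℕ) : ℤ) x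
    rw [zpow_natCast, mul_comm m, hn] at h4
    exact h4
  have h4 : Nat.card E = orderOf t₀ := by
    rw [← Nat.card_zpowers]
    exact (Nat.card_congr (Equiv.subtypeUnivEquiv hgen)).symm
  obtain ⟨b, -, hb⟩ := (Nat.dvd_prime_pow hr).1 (orderOf_dvd_of_pow_eq_one h3)
  exact ⟨b, by rw [h4, hb]⟩

end Pool.Agent.KCK
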