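import Pool.Agent.KCK.Axe
import Pool.Agent.KBD.Fpr
import Pool.Agent.Isk.Fin
import Pool.Agent.BrZ.Cyc

/-! The projective family of a block with an abelian defect group and a cyclic inertial quotient. -/

namespace Pool.Agent.KCK

open Classical
open scoped Pointwise
open Pool.Agent.KB Pool.Agent.KB.ContrAux Pool.Agent.KBL Pool.Agent.KBZ Pool.Agent.KBU
  Pool.Agent.KBQ Pool.Agent.KBD Pool.Agent.MSy Pool.Agent.BlkS Pool.Agent.BrZ Pool.Agent.Isk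

private theorem fpc_norm {K S : Type} [Group K] [Fintype K] [Fintype S] (c : S → K → ℂ)
    (hc : Function.Injective c) (hI : ∀ χ, c χ ∈ Irr K) (n : S → ℤ) :
    ∑ g : K, ‖∑ χ, (n χ : ℂ) * c χ g‖ ^ 2 = (Nat.card K : ℝ) * ((∑ χ, n χ ^ 2 : ℤ) : ℝ) := by
  have key : ((∑ g : K, ‖∑ χ, (n χ : ℂ) * c χ g‖ ^ 2 : ℝ) : ℂ) =
      (((Nat.card K : ℝ) * ((∑ χ, n χ ^ 2 : ℤ) : ℝ) : ℝ) : ℂ) := by
    push_cast
    have e1 : ∀ g : K, ((‖∑ χ, (n χ : ℂ) * c χ g‖ : ℝ) : ℂ) ^ 2 =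
        ∑ χ, ∑ ψ, (n χ : ℂ) * (n ψ : ℂ) * (c χ g * c ψ g⁻¹) := by
      intro g
      rw [← Complex.mul_conj', map_sum, Finset.sum_mul_sum]
      refine Finset.sum_congr rfl fun χ _ => Finset.sum_congr rfl fun ψ _ => ?_
      rw [map_mul, map_intCast, ← irr_inv (hI ψ)]
      ring
    rw [Finset.sum_congr rfl fun g _ => e1 g, Finset.sum_comm, Finset.mul_sum]
    refine Finset.sum_congr rfl fun χ _ => ?_
    rw [Finset.sum_comm, Finset.sum_eq_single χ]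
    · rw [← Finset.mul_sum, (Col_row (c χ) (c χ) (hI χ) (hI χ)).1 rfl]
      ring
    · intro ψ _ hne
      rw [← Finset.mul_sum, (Col_row (c χ) (c ψ) (hI χ) (hI ψ)).2 fun h => hne (hc h).symm,
        mul_zero]
    · intro h
      exact absurd (Finset.mem_univ _) h
  exact_mod_cast key

/-- The projective family from the abstract family. -/
theorem Fpa_of {K : Type} [Group K] [Fintype K] (p : ℕ) (hp : p.Prime) (𝔪 : Ideal AInt)
    (h𝔪 : 𝔪.IsMaximal) (hp𝔪 : (p : AInt) ∈ 𝔪) (χ₀ : K → ℂ) (hχ₀ : χ₀ ∈ Irr K)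
    {D E Ω V : Type} [CommGroup D] [Fintype D] [Group E] [Fintype E]
    [MulDistribMulAction E D] [Fintype Ω] [NormedAddCommGroup V] [InnerProductSpace ℂ V]
    (B : Pool.Agent.MSy.BSys p D E Ω V)
    (hAx : ∃ (N : ℕ) (n : Fin N → {χ : Ω // B.lev χ = ⊥} → ℤ),
      (∀ i, ∀ v : D, v ≠ 1 → ∑ χ, (n i χ : ℂ) • B.dd χ.1 v = 0) ∧
      ∑ i, ∑ χ, n i χ ^ 2 ≤ 2 * (Nat.card D : ℤ) ∧
      ∀ a : {χ : Ω // B.lev χ = ⊥} → ℂ, (∀ i j, i ≠ j → ∑ χ, a χ * (n i χ : ℂ) = 0 ∨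
          ∑ χ, a χ * (n j χ : ℂ) = 0) →
        ∀ ψ, B.lev ψ = ⊥ → ∑ χ, a χ * (inner ℂ (B.o χ.1) (B.o ψ) : ℂ) = 0)
    (c : {χ : Ω // B.lev χ = ⊥} → K → ℂ) (hc : Function.Injective c)
    (hr : Set.range c = block 𝔪 χ₀)
    (hin : ∀ χ ψ : {χ : Ω // B.lev χ = ⊥}, (inner ℂ (B.o χ.1) (B.o ψ.1) : ℂ) =
      (Nat.card K : ℂ)⁻¹ * ∑ g : K with ¬ p ∣ orderOf g, (starRingEnd ℂ) (c χ g) * c ψ g)
    (hsg : ∀ g : K, p ∣ orderOf g → ∃ (m : ℕ) (v : Fin m → D) (L : Fin m → V →ₗ[ℂ] ℂ),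
      (∀ j, v j ≠ 1) ∧ ∀ χ : {χ : Ω // B.lev χ = ⊥}, c χ g = ∑ j, L j (B.dd χ.1 (v j))) :
    ∃ (N : ℕ) (Φ : Fin N → K → ℂ), PrjF p 𝔪 χ₀ (Nat.card D) N Φ := by
  obtain ⟨N, n, hn1, hn2, hn3⟩ := hAx
  have hcI : ∀ χ, c χ ∈ block 𝔪 χ₀ := fun χ => by rw [← hr]; exact ⟨χ, rfl⟩
  refine ⟨N, fun i g => ∑ χ, (n i χ : ℂ) * c χ g, ?_, ?_, ?_, ?_⟩
  · intro i
    have h1 : (fun g => ∑ χ, (n i χ : ℂ) * c χ g) = ∑ χ, n i χ • c χ := by
      funext g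
      rw [Finset.sum_apply]
      refine Finset.sum_congr rfl fun χ _ => ?_
      rw [Pi.smul_apply, zsmul_eq_mul]
    rw [h1]
    exact AddSubgroup.sum_mem _ fun χ _ =>
      AddSubgroup.zsmul_mem _ (AddSubgroup.subset_closure (hcI χ)) _
  · intro i g hg
    obtain ⟨m, v, L, hv, hL⟩ := hsg g hg
    show ∑ χ, (n i χ : ℂ) * c χ g = 0
    have h1 : ∀ χ, (n i χ : ℂ) * c χ g = ∑ j, L j ((n i χ : ℂ) • B.dd χ.1 (v j)) := by
      intro χ
      rw [hL, Finset.mul_sum]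
      refine Finset.sum_congr rfl fun j _ => ?_
      rw [map_smul, smul_eq_mul]
    rw [Finset.sum_congr rfl fun χ _ => h1 χ, Finset.sum_comm]
    refine Finset.sum_eq_zero fun j _ => ?_
    rw [← map_sum, hn1 i (v j) (hv j), map_zero]
  · have h1 : ∀ i, ∑ g : K, ‖∑ χ, (n i χ : ℂ) * c χ g‖ ^ 2 =
        (Nat.card K : ℝ) * ((∑ χ, n i χ ^ 2 : ℤ) : ℝ) := fun i =>
      fpc_norm c hc (fun χ => (hcI χ).1) (n i)
    rw [Finset.sum_congr rfl fun i _ => h1 i, ← Finset.mul_sum]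
    have h2 : (∑ i, ((∑ χ, n i χ ^ 2 : ℤ) : ℝ)) ≤ 2 * (Nat.card D : ℝ) := by
      exact_mod_cast hn2
    have h3 : (0 : ℝ) ≤ (Nat.card K : ℝ) := Nat.cast_nonneg _
    calc (Nat.card K : ℝ) * ∑ i, ((∑ χ, n i χ ^ 2 : ℤ) : ℝ)
        ≤ (Nat.card K : ℝ) * (2 * (Nat.card D : ℝ)) := mul_le_mul_of_nonneg_left h2 h3
      _ = 2 * (Nat.card D : ℝ) * (Nat.card K : ℝ) := by ring
  · intro f hf ψ hψ
    have hψ' := hψ
    rw [← hr] at hψ'
    obtain ⟨ψ', rfl⟩ := hψ'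
    have e1 : ∀ i, ∑ χ, (∑ g, f g * (starRingEnd ℂ) (c χ g)) * (n i χ : ℂ) =
        ∑ g, f g * (starRingEnd ℂ) (∑ χ, (n i χ : ℂ) * c χ g) := by
      intro i
      simp only [Finset.sum_mul, map_sum, Finset.mul_sum]
      rw [Finset.sum_comm]
      refine Finset.sum_congr rfl fun g _ => Finset.sum_congr rfl fun χ _ => ?_
      rw [map_mul, map_intCast]
      ring
    have h1 := hn3 (fun χ => ∑ g, f g * (starRingEnd ℂ) (c χ g))
      (fun i j hij => by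
        rw [e1 i, e1 j]
        exact hf i j hij) ψ'.1 ψ'.2
    have h2 : ∀ χ : {χ : Ω // B.lev χ = ⊥}, (∑ g, f g * (starRingEnd ℂ) (c χ g)) *
        (inner ℂ (B.o χ.1) (B.o ψ'.1) : ℂ) = ∑ g, f g *
        (((Nat.card K : ℂ)⁻¹ * ∑ x : K with ¬ p ∣ orderOf x,
          (starRingEnd ℂ) (c χ x) * c ψ' x) * c χ g⁻¹) := by
      intro χ
      rw [hin χ ψ', Finset.sum_mul]
      refine Finset.sum_congr rfl fun g _ => ?_
      rw [irr_inv (hcI χ).1]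
      ring
    rw [Finset.sum_congr rfl fun χ _ => h2 χ, Finset.sum_comm] at h1
    have h3 : ∀ g : K, ∑ χ : {χ : Ω // B.lev χ = ⊥}, f g *
        (((Nat.card K : ℂ)⁻¹ * ∑ x : K with ¬ p ∣ orderOf x,
          (starRingEnd ℂ) (c χ x) * c ψ' x) * c χ g⁻¹) =
        if ¬ p ∣ orderOf g then f g * c ψ' g⁻¹ else 0 := by
      intro g
      rw [← Finset.mul_sum, Fpa_exp p hp 𝔪 h𝔪 hp𝔪 χ₀ hχ₀ c hc hr (c ψ') hψ g⁻¹, orderOf_inv]
      by_cases hg : p ∣ orderOf g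
      · rw [if_pos hg, if_neg (not_not.2 hg), mul_zero]
      · rw [if_neg hg, if_pos hg]
    rw [Finset.sum_congr rfl fun g _ => h3 g, ← Finset.sum_filter] at h1
    exact h1

/-- The projective family of a block with a splitting of the defect group and a cyclic inertial quotient. -/
theorem Fpr_cyc {K H D E : Type} [Group K] [Fintype K] [Group H] [Fintype H] [CommGroup D]
    [Fintype D] [CommGroup E] [Fintype E] [MulDistribMulAction E D] [IsCyclic E] {p : ℕ}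
    {𝔪 : Ideal AInt} {χ₀ : K → ℂ} (A : Dat K H D E p 𝔪 χ₀) {D₁ D₂ : Subgroup D}
    (hy : Hy A.sys D₁ D₂) :
    ∃ (N : ℕ) (Φ : Fin N → K → ℂ), PrjF p 𝔪 χ₀ (Nat.card D) N Φ := by
  have hm : 𝔪.IsMaximal := A.hm
  have hbot : ∀ χ : {χ : A.Om // A.sys.lev χ = ⊥}, A.IsB ⊥ (A.fn χ.1) := by
    intro χ
    have h1 := A.fn_isB χ.1
    rwa [show A.lev χ.1 = ⊥ from χ.2] at h1
  refine Fpa_of p A.hp 𝔪 A.hm A.hpm χ₀ A.irr₀ A.sys (Ax_bot hy) (fun χ => A.fn χ.1) ?_ ?_ ?_ ?_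
  · intro χ ψ h
    exact Subtype.ext (A.Om_ext (χ.2.trans ψ.2.symm) h)
  · ext f
    rw [Set.mem_range]
    constructor
    · rintro ⟨χ, rfl⟩
      exact (A.isB_bot _).1 (hbot χ)
    · intro hf
      exact ⟨⟨⟨(⊥, f), (A.isB_bot f).2 hf⟩, rfl⟩, rfl⟩
  · intro χ ψ
    have h1 := A.inner_ov χ.1 ψ.1
    rw [if_pos (show A.lev χ.1 = A.lev ψ.1 from χ.2.trans ψ.2.symm)] at h1
    have h2 : Nat.card (A.cs (A.lev χ.1)) = Nat.card K := by
      rw [show A.lev χ.1 = ⊥ from χ.2]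
      exact Nat.card_congr (Equiv.subtypeUnivEquiv fun g => A.cs_bot g)
    rw [h2] at h1
    exact h1
  · intro g hg
    obtain ⟨L, hL1, hL, -, -⟩ := A.fun_sing g hg
    let F := {v : D // v ≠ 1}
    let e := Fintype.equivFin F
    refine ⟨Fintype.card F, fun j => (e.symm j).1, fun j => L (e.symm j).1,
      fun j => (e.symm j).2, fun χ => ?_⟩
    show A.fn χ.1 g = _
    rw [hL χ.1 χ.2]
    rw [Equiv.sum_comp e.symm (fun v : F => L v.1 (A.sys.dd χ.1 v.1))]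
    have h1 := Finset.sum_subtype (F := inferInstanceAs (Fintype F)) (p := fun v : D => v ≠ 1)
      (Finset.univ.filter fun v : D => v ≠ 1) (fun v => by simp)
      (fun v => L v (A.sys.dd χ.1 v))
    rw [← h1]
    symm
    refine Finset.sum_subset (Finset.filter_subset _ _) fun v _ hv => ?_
    have h2 : v = 1 := by
      by_contra h3
      exact hv (Finset.mem_filter.2 ⟨Finset.mem_univ _, h3⟩)
    rw [h2, hL1]
    rfl

/-- Cyclic of prime power order. -/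
theorem Hy_pp (hK : ThmK) {K H D E : Type} [Group K] [Fintype K] [Group H] [Fintype H]
    [CommGroup D] [Fintype D] [Nontrivial D] [CommGroup E] [Fintype E] [MulDistribMulAction E D]
    [hc : IsCyclic E] {p : ℕ} {𝔪 : Ideal AInt} {χ₀ : K → ℂ} (A : Dat K H D E p 𝔪 χ₀) {r n : ℕ}
    (hr : r.Prime) (hcard : Nat.card E = r ^ n) : ∃ D₁ D₂ : Subgroup D, Hy A.sys D₁ D₂ := by
  obtain ⟨D₁, D₂, h1, h2, h3, h4, h5, h6⟩ := exists_split A.hp A.isP A.hE A.faith hc hr hcard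
  exact ⟨D₁, D₂, hy_sys hK A D₁ D₂ h1 h2 h3 h4 h5 h6
    (lab_two (q := r) (r := r) (a := n) (b := 0) hr hr (by rw [hcard, pow_zero, mul_one]) D₁)⟩

/-- The projective family of a block with a cyclic inertial quotient of prime power order. -/
theorem Fpr_pp (hK : ThmK) {K H D E : Type} [Group K] [Fintype K] [Group H] [Fintype H]
    [CommGroup D] [Fintype D] [Nontrivial D] [Group E] [Fintype E] [MulDistribMulAction E D]
    [hc : IsCyclic E] {p : ℕ} {𝔪 : Ideal AInt} {χ₀ : K → ℂ} (A : Dat K H D E p 𝔪 χ₀) {r n : ℕ}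
    (hr : r.Prime) (hcard : Nat.card E = r ^ n) :
    ∃ (N : ℕ) (Φ : Fin N → K → ℂ), PrjF p 𝔪 χ₀ (Nat.card D) N Φ := by
  have hcom : ∀ a b : E, a * b = b * a := by
    intro a b
    obtain ⟨g, hg⟩ := hc.exists_generator
    obtain ⟨i, rfl⟩ := Subgroup.mem_zpowers_iff.1 (hg a)
    obtain ⟨j, rfl⟩ := Subgroup.mem_zpowers_iff.1 (hg b)
    rw [← zpow_add, ← zpow_add, add_comm]
  let iE : CommGroup E := { ‹Group E› with mul_comm := hcom }
  obtain ⟨D₁, D₂, hy⟩ := Hy_pp (E := E) hK A hr hcard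
  exact Fpr_cyc A hy

end Pool.Agent.KCK
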