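import Pool.Agent.KCK.Core
import Pool.Agent.KCK.Cyc
import Pool.Agent.KCK.Fpc

/-! The projective family and the inequality when the stabilizer acts as a cyclic group of prime power
order. -/

set_option autoImplicit false

namespace Pool.Agent.KCK

open Pool.Agent.KB Pool.Agent.KB.ContrAux Pool.Agent.KBL Pool.Agent.KBZ Pool.Agent.KBU
  Pool.Agent.KBQ Pool.Agent.KBD Pool.Agent.BrZ

/-- The projective family of a block with an abelian defect group `P ≠ 1` if the stabilizer of the block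
of the centralizer acts on `P` as a cyclic group of prime power order. -/
theorem Prj_pp (hK : ThmK) {K H : Type} [Group K] [Fintype K] [Group H] [Fintype H] (p : ℕ)
    (hp : p.Prime) (𝔪 : Ideal AInt) (h𝔪 : 𝔪.IsMaximal) (hp𝔪 : (p : AInt) ∈ 𝔪) (χ₀ : K → ℂ)
    (hχ₀ : χ₀ ∈ Irr K) (P : Subgroup K) (ι : H →* K) (ζ : H → ℂ) (hA : AbD p 𝔪 χ₀ P ι ζ)
    (hnt : P ≠ ⊥) {X : Type} (q : X → P) (hq : Function.Surjective q) (α : Equiv.Perm X)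
    (r c : ℕ) (hr : r.Prime) (h1 : ∀ x, q ((α ^ (r ^ c)) x) = q x)
    (h2 : ∀ n ∈ Stb 𝔪 hA.cen ζ, ∃ k : ℤ, ∀ x, n * (q x : K) * n⁻¹ = q ((α ^ k) x)) :
    ∃ (N : ℕ) (Φ : Fin N → K → ℂ), PrjF p 𝔪 χ₀ (Nat.card P) N Φ := by
  obtain ⟨D, E, i1, i2, i3, i4, i5, A, rfl, rfl, rfl⟩ :=
    Dat_ex p hp 𝔪 h𝔪 hp𝔪 χ₀ hχ₀ P ι ζ hA
  have h3 : Nat.card A.δ.range = Nat.card D :=
    (Nat.card_congr (A.δ.ofInjective A.dinj).toEquiv).symm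
  rw [h3]
  obtain ⟨q', hq'⟩ : ∃ q' : X → D, ∀ x, A.δ (q' x) = q x := by
    refine ⟨fun x => (q x).2.choose, fun x => (q x).2.choose_spec⟩
  have hsurj : Function.Surjective q' := by
    intro v
    obtain ⟨x, hx⟩ := hq ⟨A.δ v, v, rfl⟩
    refine ⟨x, A.dinj ?_⟩
    rw [hq', hx]
  obtain ⟨hc, b, hb⟩ := Cyc_gen A.faith q' hsurj α r c hr
    (fun x => A.dinj (by rw [hq', hq', h1]))
    (fun t => by
      obtain ⟨k, hk⟩ := h2 (A.τ t) (A.tmem t)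
      refine ⟨k, fun x => A.dinj ?_⟩
      rw [← A.tact t, hq', hq', hk])
  have hN : Nontrivial D := by
    rw [nontrivial_iff]
    by_contra hcon
    push Not at hcon
    apply hnt
    rw [eq_bot_iff]
    rintro _ ⟨v, rfl⟩
    rw [hcon v 1, map_one]
    exact Subgroup.one_mem _
  exact Fpr_pp hK A hr hb

/-- **The inequality.** `D` is a defect group, `u ≠ 1` is in the centre of `D`, `D / ⟨u⟩` is abelian,
and the elements of the stabilizer of the block of the centralizer of `D` which commute with `u` act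
on `D / ⟨u⟩` as powers of one permutation `α` of a set `X` which covers `D`, whose order on
`D / ⟨u⟩` is a power of a prime `r`. -/
theorem Fin_ppX (hK : ThmK) {G H : Type} [Group G] [Fintype G] [Group H] [Fintype H] (p : ℕ)
    (hp : p.Prime) (𝔪 : Ideal AInt) (h𝔪 : 𝔪.IsMaximal) (hp𝔪 : (p : AInt) ∈ 𝔪) (χ₀ : G → ℂ)
    (hχ₀ : χ₀ ∈ Irr G) (D : Subgroup G) (ι : H →* G) (ζ : H → ℂ) (hD : DefP p 𝔪 χ₀ D ι ζ)
    (u : G) (hu : u ∈ D) (hu1 : u ≠ 1) (hcu : ∀ a ∈ D, a * u = u * a)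
    (hcom : ∀ a ∈ D, ∀ b ∈ D, a * b * a⁻¹ * b⁻¹ ∈ Subgroup.zpowers u)
    {X : Type} (q : X → D) (hq : Function.Surjective q) (α : Equiv.Perm X) (r c : ℕ) (hr : r.Prime)
    (h1 : ∀ x : X, (q ((α ^ (r ^ c)) x) : G) * (q x : G)⁻¹ ∈ Subgroup.zpowers u)
    (h2 : ∀ n ∈ Stb 𝔪 hD.cen ζ, n * u = u * n → ∃ k : ℤ, ∀ x : X,
      n * (q x : G) * n⁻¹ * (q ((α ^ k) x) : G)⁻¹ ∈ Subgroup.zpowers u) :
    (block 𝔪 χ₀).ncard ≤ p ^ defect p (block 𝔪 χ₀) := by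
  refine Core_gen p hp 𝔪 h𝔪 hp𝔪 χ₀ hχ₀ D ι ζ hD u hu hu1 hcu hcom ?_
  intro C Q H₁ _ _ _ _ π hC hπ hker ξ hξ ι₁ ζ₁ hA hP0 hst
  have hDC : ∀ x : D, (x : G) ∈ C := fun x => (hC x).2 (hcu x x.2)
  have hmem : ∀ x : D, π ⟨(x : G), hDC x⟩ ∈ (D.comap C.subtype).map π := fun x =>
    ⟨⟨(x : G), hDC x⟩, x.2, rfl⟩
  have heq : ∀ a b : C, (a : G) * (b : G)⁻¹ ∈ Subgroup.zpowers u → π a = π b := by
    intro a b h
    have h3 : π (a * b⁻¹) = 1 := (hker _).2 h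
    rw [map_mul, map_inv] at h3
    exact mul_inv_eq_one.1 h3
  refine Prj_pp hK p hp 𝔪 h𝔪 hp𝔪 ξ hξ _ ι₁ ζ₁ hA hP0
    (fun x : X => (⟨π ⟨(q x : G), hDC (q x)⟩, hmem (q x)⟩ : (D.comap C.subtype).map π)) ?_ α r c
    hr ?_ ?_
  · rintro ⟨_, x, hx, rfl⟩
    obtain ⟨y, hy⟩ := hq ⟨(x : G), hx⟩
    refine ⟨y, Subtype.ext ?_⟩
    show π ⟨(q y : G), hDC (q y)⟩ = π x
    congr 1
    apply Subtype.ext
    show ((q y : D) : G) = (x : G)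
    rw [hy]
  · intro x
    exact Subtype.ext (heq _ _ (h1 x))
  · intro n hn
    obtain ⟨g, hg, hgx⟩ := hst n hn
    obtain ⟨k, hk⟩ := h2 g hg ((hC _).1 g.2)
    refine ⟨k, fun x => ?_⟩
    show n * π ⟨(q x : G), hDC (q x)⟩ * n⁻¹ = π ⟨(q ((α ^ k) x) : G), hDC _⟩
    rw [← hgx ⟨(q x : G), hDC (q x)⟩ (q x).2]
    exact heq _ _ (hk x)

/-- Conjugation with an element `τ` of the normalizer of `D.map ι` as a permutation of `D`. -/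
theorem Prm_ex {N G : Type} [Group N] [Group G] {ι : N →* G} (hι : Function.Injective ι)
    (D : Subgroup N) (τ : G) (hτ : ∀ x, x ∈ D.map ι ↔ τ * x * τ⁻¹ ∈ D.map ι) :
    ∃ α : Equiv.Perm D, ∀ (k : ℤ) (x : D), ι (((α ^ k) x : D) : N) = τ ^ k * ι x * (τ ^ k)⁻¹ := by
  obtain ⟨α, hα⟩ : ∃ α : Equiv.Perm D, ∀ x : D, ι ((α x : D) : N) = τ * ι x * τ⁻¹ := by
    have h1 : ∀ x : D, ∃ y : D, ι y = τ * ι x * τ⁻¹ := by
      intro x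
      obtain ⟨y, hy, hy'⟩ := (hτ _).1 (Subgroup.mem_map_of_mem ι x.2)
      exact ⟨⟨y, hy⟩, hy'⟩
    have h2 : ∀ x : D, ∃ y : D, ι y = τ⁻¹ * ι x * τ := by
      intro x
      have h3 : τ * (τ⁻¹ * ι x * τ) * τ⁻¹ = ι x := by group
      obtain ⟨y, hy, hy'⟩ := (hτ (τ⁻¹ * ι x * τ)).2 (by
        rw [h3]
        exact Subgroup.mem_map_of_mem ι x.2)
      exact ⟨⟨y, hy⟩, hy'⟩
    choose f hf using h1
    choose g hg using h2
    refine ⟨⟨f, g, fun x => ?_, fun x => ?_⟩, hf⟩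
    · apply Subtype.ext
      apply hι
      rw [hg, hf]
      group
    · apply Subtype.ext
      apply hι
      rw [hf, hg]
      group
  have hnat : ∀ (k : ℕ) (x : D), ι (((α ^ k) x : D) : N) = τ ^ k * ι x * (τ ^ k)⁻¹ := by
    intro k
    induction k with
    | zero => intro x; simp
    | succ k ih =>
      intro x
      rw [pow_succ', Equiv.Perm.mul_apply, hα, ih, pow_succ']
      group
  refine ⟨α, fun k x => ?_⟩
  obtain ⟨k, rfl | rfl⟩ := k.eq_nat_or_neg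
  · rw [zpow_natCast, zpow_natCast]
    exact hnat k x
  · have h3 := hnat k ((α ^ (-(k : ℤ))) x)
    have h4 : (α ^ k) ((α ^ (-(k : ℤ))) x) = x := by
      rw [← Equiv.Perm.mul_apply, ← zpow_natCast, ← zpow_add, add_neg_cancel, zpow_zero]
      rfl
    rw [h4] at h3
    rw [h3, zpow_neg, zpow_natCast]
    group

/-- The same with an element `τ` of the normalizer of `D`. -/
theorem Fin_pp (hK : ThmK) {G H : Type} [Group G] [Fintype G] [Group H] [Fintype H] (p : ℕ)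
    (hp : p.Prime) (𝔪 : Ideal AInt) (h𝔪 : 𝔪.IsMaximal) (hp𝔪 : (p : AInt) ∈ 𝔪) (χ₀ : G → ℂ)
    (hχ₀ : χ₀ ∈ Irr G) (D : Subgroup G) (ι : H →* G) (ζ : H → ℂ) (hD : DefP p 𝔪 χ₀ D ι ζ)
    (u : G) (hu : u ∈ D) (hu1 : u ≠ 1) (hcu : ∀ a ∈ D, a * u = u * a)
    (hcom : ∀ a ∈ D, ∀ b ∈ D, a * b * a⁻¹ * b⁻¹ ∈ Subgroup.zpowers u)
    (r c : ℕ) (hr : r.Prime) (τ : G) (hτ : ∀ x, x ∈ D ↔ τ * x * τ⁻¹ ∈ D)
    (h1 : ∀ x ∈ D, τ ^ (r ^ c) * x * (τ ^ (r ^ c))⁻¹ * x⁻¹ ∈ Subgroup.zpowers u)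
    (h2 : ∀ n ∈ Stb 𝔪 hD.cen ζ, n * u = u * n → ∃ k : ℤ, ∀ x ∈ D,
      n * x * n⁻¹ * (τ ^ k * x * (τ ^ k)⁻¹)⁻¹ ∈ Subgroup.zpowers u) :
    (block 𝔪 χ₀).ncard ≤ p ^ defect p (block 𝔪 χ₀) := by
  obtain ⟨α, hα⟩ := Prm_ex (ι := MonoidHom.id G) (fun _ _ h => h) D τ (by
    intro x
    rw [Subgroup.map_id]
    exact hτ x)
  have hα' : ∀ (k : ℤ) (x : D), (((α ^ k) x : D) : G) = τ ^ k * x * (τ ^ k)⁻¹ := hα
  refine Fin_ppX hK p hp 𝔪 h𝔪 hp𝔪 χ₀ hχ₀ D ι ζ hD u hu hu1 hcu hcom (fun x : D => x)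
    (fun x => ⟨x, rfl⟩) α r c hr ?_ ?_
  · intro x
    have h3 := hα' ((r ^ c : ℕ) : ℤ) x
    rw [zpow_natCast, zpow_natCast] at h3
    rw [h3]
    exact h1 x x.2
  · intro n hn hnu
    obtain ⟨k, hk⟩ := h2 n hn hnu
    refine ⟨k, fun x => ?_⟩
    rw [hα']
    exact hk x x.2

/-- **The inequality for free actions.** `D` is a defect group, `u ≠ 1` is in the centre of `D`,
`D / ⟨u⟩` is abelian, and the elements of the stabilizer of the block of the centralizer of `D` which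
commute with `u` act on `D / ⟨u⟩` trivially or without fixed points `≠ 1`. -/
theorem Fin_fr {G H : Type} [Group G] [Fintype G] [Group H] [Fintype H] (p : ℕ)
    (hp : p.Prime) (𝔪 : Ideal AInt) (h𝔪 : 𝔪.IsMaximal) (hp𝔪 : (p : AInt) ∈ 𝔪) (χ₀ : G → ℂ)
    (hχ₀ : χ₀ ∈ Irr G) (D : Subgroup G) (ι : H →* G) (ζ : H → ℂ) (hD : DefP p 𝔪 χ₀ D ι ζ)
    (u : G) (hu : u ∈ D) (hu1 : u ≠ 1) (hcu : ∀ a ∈ D, a * u = u * a)
    (hcom : ∀ a ∈ D, ∀ b ∈ D, a * b * a⁻¹ * b⁻¹ ∈ Subgroup.zpowers u)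
    (hfree : ∀ n ∈ Stb 𝔪 hD.cen ζ, n * u = u * n → ∀ v ∈ D, v ∉ Subgroup.zpowers u →
      n * v * n⁻¹ * v⁻¹ ∈ Subgroup.zpowers u → ∀ x ∈ D, n * x * n⁻¹ * x⁻¹ ∈ Subgroup.zpowers u) :
    (block 𝔪 χ₀).ncard ≤ p ^ defect p (block 𝔪 χ₀) := by
  refine Core_gen p hp 𝔪 h𝔪 hp𝔪 χ₀ hχ₀ D ι ζ hD u hu hu1 hcu hcom ?_
  intro C Q H₁ _ _ _ _ π hC hπ hker ξ hξ ι₁ ζ₁ hA hP0 hst
  have heq : ∀ a b : C, (a : G) * (b : G)⁻¹ ∈ Subgroup.zpowers u → π a = π b := by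
    intro a b h
    have h3 : π (a * b⁻¹) = 1 := (hker _).2 h
    rw [map_mul, map_inv] at h3
    exact mul_inv_eq_one.1 h3
  refine Fpr_main p hp 𝔪 h𝔪 hp𝔪 ξ hξ _ ι₁ ζ₁ hA hP0 ?_
  rintro n hn _ ⟨v, hv, rfl⟩ hv1 hnv _ ⟨x, hx, rfl⟩
  obtain ⟨g, hg, hgx⟩ := hst n hn
  have h3 : (v : G) ∉ Subgroup.zpowers u := fun h => hv1 ((hker v).2 h)
  have h4 : π (g * v * g⁻¹ * v⁻¹) = 1 := by
    rw [map_mul, hgx v hv, map_inv, hnv, mul_inv_cancel_right, mul_inv_cancel]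
  have h5 := hfree g hg ((hC _).1 g.2) v hv h3 ((hker _).1 h4) x hx
  have h6 := heq (g * x * g⁻¹) x h5
  rw [hgx x hx] at h6
  exact mul_inv_eq_iff_eq_mul.1 h6

end Pool.Agent.KCK
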