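import Pool.Agent.Isk.Fr

/-! The sums of the characters of a block system with a frame over the orbits of the characters of the defect
group. -/

namespace Pool.Agent.KCK

open Classical
open scoped Pointwise
open Pool.Agent.MSy Pool.Agent.Isk

section Grp

variable {p : ℕ} {D E : Type} [CommGroup D] [Fintype D] [CommGroup E] [Fintype E]
    [MulDistribMulAction E D]

/-- The characters which are trivial on `R` and fixed by `s`. -/
noncomputable def FX (R : Subgroup D) (s : E) : Finset (D →* ℂˣ) :=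
  Finset.univ.filter fun θ => (∀ z ∈ R, θ z = 1) ∧ ca s θ = θ

omit [Fintype E] in
theorem mem_FX {R : Subgroup D} {s : E} {θ : D →* ℂˣ} :
    θ ∈ FX R s ↔ (∀ z ∈ R, θ z = 1) ∧ ca s θ = θ := by
  rw [FX, Finset.mem_filter]
  exact and_iff_right (Finset.mem_univ _)

theorem card_FX (hp : p.Prime) (hD : IsPGroup p D) (hE : ¬ p ∣ Nat.card E) {R : Subgroup D}
    {s : E} (hs : s ∈ EE E R) : fx D s = Nat.card R * (FX R s).card := by
  have h1 := cnt_fix hp hD hE R hs hs
  have h2 : fx D s = Nat.card {v : D // s • v = v ∧ s • v = v} := by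
    unfold fx
    exact Nat.card_congr (Equiv.subtypeEquivRight fun v => by tauto)
  have h3 : (FX R s).card =
      Nat.card {θ : D →* ℂˣ // (∀ z ∈ R, θ z = 1) ∧ ca s θ = θ ∧ ca s θ = θ} := by
    rw [Nat.card_eq_fintype_card, Fintype.card_subtype]
    congr 1
    ext θ
    rw [mem_FX, Finset.mem_filter]
    have := Finset.mem_univ θ
    tauto
  rw [h2, h1, h3]

theorem one_mem_FX (R : Subgroup D) (s : E) : (1 : D →* ℂˣ) ∈ FX R s :=
  mem_FX.2 ⟨fun _ _ => rfl, ca_one_char s⟩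

theorem FX_on {R : Subgroup D} {s : E} {v : D} (hv : v ∈ R) :
    ∑ θ ∈ FX R s, ev θ v = ((FX R s).card : ℂ) := by
  rw [Finset.sum_congr rfl fun θ hθ => show ev θ v = 1 by
    unfold ev
    rw [(mem_FX.1 hθ).1 v hv, Units.val_one]]
  rw [Finset.sum_const, nsmul_eq_mul, mul_one]

theorem FX_off (hp : p.Prime) (hD : IsPGroup p D) (hE : ¬ p ∣ Nat.card E) {R : Subgroup D}
    {s : E} (hs : s ∈ EE E R) {v : D} (hv : s • v = v) (hvR : v ∉ R) :
    ∑ θ ∈ FX R s, ev θ v = 0 := by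
  by_cases hall : ∀ θ ∈ FX R s, θ v = 1
  · exfalso
    have hs' : s ∈ EE E (jn R v) := mem_EE_jn.2 ⟨hs, hv⟩
    have h1 : FX R s = FX (jn R v) s := by
      ext θ
      constructor
      · intro hθ
        refine mem_FX.2 ⟨?_, (mem_FX.1 hθ).2⟩
        have h2 : jn R v ≤ θ.ker := by
          refine sup_le (fun z hz => ?_) ?_
          · exact (mem_FX.1 hθ).1 z hz
          · rw [Subgroup.zpowers_le]
            exact hall θ hθ
        exact fun z hz => h2 hz
      · intro hθ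
        exact mem_FX.2 ⟨fun z hz => (mem_FX.1 hθ).1 z (le_jn R v hz), (mem_FX.1 hθ).2⟩
    have h2 := card_FX hp hD hE hs
    have h3 := card_FX hp hD hE hs'
    rw [← h1, h2] at h3
    have h4 : 0 < (FX R s).card := Finset.card_pos.2 ⟨1, one_mem_FX R s⟩
    have h5 : Nat.card R = Nat.card (jn R v) := Nat.eq_of_mul_eq_mul_right h4 h3
    have h6 : R = jn R v := Subgroup.eq_of_le_of_card_ge (le_jn R v) h5.ge
    exact hvR (h6 ▸ mem_jn R v)
  · push Not at hall
    obtain ⟨l, hl, hl1⟩ := hall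
    have h1 : ∑ θ ∈ FX R s, ev θ v = ∑ θ ∈ FX R s, ev l v * ev θ v := by
      refine Finset.sum_bij' (fun θ _ => l⁻¹ * θ) (fun θ _ => l * θ) ?_ ?_ ?_ ?_ ?_
      · intro θ hθ
        refine mem_FX.2 ⟨fun z hz => ?_, ?_⟩
        · rw [MonoidHom.mul_apply, MonoidHom.inv_apply, (mem_FX.1 hl).1 z hz,
            (mem_FX.1 hθ).1 z hz, inv_one, one_mul]
        · ext w
          have h2 := DFunLike.congr_fun (mem_FX.1 hl).2 w
          have h3 := DFunLike.congr_fun (mem_FX.1 hθ).2 w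
          have h4 : l (s⁻¹ • w) = l w := h2
          have h5 : θ (s⁻¹ • w) = θ w := h3
          show (((l (s⁻¹ • w))⁻¹ * θ (s⁻¹ • w) : ℂˣ) : ℂ) = (((l w)⁻¹ * θ w : ℂˣ) : ℂ)
          rw [h4, h5]
      · intro θ hθ
        refine mem_FX.2 ⟨fun z hz => ?_, ?_⟩
        · rw [MonoidHom.mul_apply, (mem_FX.1 hl).1 z hz, (mem_FX.1 hθ).1 z hz, one_mul]
        · ext w
          have h2 := DFunLike.congr_fun (mem_FX.1 hl).2 w
          have h3 := DFunLike.congr_fun (mem_FX.1 hθ).2 w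
          have h4 : l (s⁻¹ • w) = l w := h2
          have h5 : θ (s⁻¹ • w) = θ w := h3
          show ((l (s⁻¹ • w) * θ (s⁻¹ • w) : ℂˣ) : ℂ) = ((l w * θ w : ℂˣ) : ℂ)
          rw [h4, h5]
      · intro θ _
        exact mul_inv_cancel_left l θ
      · intro θ _
        exact inv_mul_cancel_left l θ
      · intro θ _
        rw [← ev_mul_char]
        exact congrArg (fun x : D →* ℂˣ => ev x v) (mul_inv_cancel_left l θ).symm
    rw [← Finset.mul_sum] at h1
    have h2 : (1 - ev l v) * ∑ θ ∈ FX R s, ev θ v = 0 := by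
      rw [sub_mul, one_mul, ← h1, sub_self]
    rcases mul_eq_zero.1 h2 with h3 | h3
    · exfalso
      apply hl1
      have h4 : ev l v = 1 := (sub_eq_zero.1 h3).symm
      exact Units.ext h4
    · exact h3

/-- Representatives of the orbits. -/
theorem exists_T (E : Type) [CommGroup E] [Fintype E] [MulDistribMulAction E D]
    (R : Subgroup D) : ∃ T : Finset (D →* ℂˣ), (∀ τ ∈ T, ∀ z ∈ R, τ z = 1) ∧
    ∀ h : (D →* ℂˣ) → ℂ, ∑ θ : D →* ℂˣ with (∀ z ∈ R, θ z = 1), h θ =
      ∑ τ ∈ T, (Nat.card (St R τ : Subgroup E) : ℂ)⁻¹ *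
        ∑ x : E with x ∈ EE E R, h (ca x τ) := by
  let st : Setoid (D →* ℂˣ) :=
    { r := fun a b => ∃ x ∈ EE E R, ca x a = b
      iseqv := by
        refine ⟨fun a => ⟨1, one_mem _, ca_one a⟩, ?_, ?_⟩
        · rintro a b ⟨x, hx, rfl⟩
          exact ⟨x⁻¹, inv_mem hx, by rw [← ca_mul, inv_mul_cancel, ca_one]⟩
        · rintro a b c ⟨x, hx, rfl⟩ ⟨y, hy, rfl⟩
          exact ⟨y * x, mul_mem hy hx, by rw [ca_mul]⟩ }
  let rep : (D →* ℂˣ) → (D →* ℂˣ) := fun θ => Quotient.out (Quotient.mk st θ)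
  have hrep : ∀ θ, ∃ x ∈ EE E R, ca x (rep θ) = θ := fun θ =>
    Quotient.exact (Quotient.out_eq (Quotient.mk st θ))
  have hrep' : ∀ θ, ∀ x ∈ EE E R, rep (ca x θ) = rep θ := by
    intro θ x hx
    have h1 : Quotient.mk st (ca x θ) = Quotient.mk st θ :=
      (Quotient.sound (show st.r θ (ca x θ) from ⟨x, hx, rfl⟩)).symm
    show Quotient.out (Quotient.mk st (ca x θ)) = Quotient.out (Quotient.mk st θ)
    rw [h1]
  have htr : ∀ θ : D →* ℂˣ, (∀ z ∈ R, θ z = 1) → ∀ x ∈ EE E R, ∀ z ∈ R, ca x θ z = 1 := by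
    intro θ hθ x hx z hz
    show θ (x⁻¹ • z) = 1
    rw [(inv_mem hx : x⁻¹ ∈ EE E R) z hz]
    exact hθ z hz
  have htrr : ∀ θ : D →* ℂˣ, (∀ z ∈ R, θ z = 1) → ∀ z ∈ R, rep θ z = 1 := by
    intro θ hθ z hz
    obtain ⟨x, hx, hx'⟩ := hrep θ
    have h1 : ca x⁻¹ θ = rep θ := by
      have h2 : ca x⁻¹ (ca x (rep θ)) = rep θ := by
        rw [← ca_mul, inv_mul_cancel, ca_one]
      rwa [hx'] at h2
    rw [← h1]
    exact htr θ hθ _ (inv_mem hx) z hz
  let X : Finset (D →* ℂˣ) := Finset.univ.filter fun θ => ∀ z ∈ R, θ z = 1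
  refine ⟨X.image rep, ?_, ?_⟩
  · intro τ hτ
    obtain ⟨θ, hθ, rfl⟩ := Finset.mem_image.1 hτ
    exact htrr θ (Finset.mem_filter.1 hθ).2
  · intro h
    rw [← Finset.sum_fiberwise_of_maps_to (s := X) (t := X.image rep) (g := rep)
      (fun θ hθ => Finset.mem_image_of_mem _ hθ) h]
    refine Finset.sum_congr rfl fun τ hτ => ?_
    have hτ1 : rep τ = τ := by
      obtain ⟨θ, hθ, rfl⟩ := Finset.mem_image.1 hτ
      obtain ⟨x, hx, hx'⟩ := hrep θ
      have h1 := hrep' (rep θ) x hx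
      rw [hx'] at h1
      exact h1.symm
    have hτ2 : ∀ z ∈ R, τ z = 1 := by
      obtain ⟨θ, hθ, rfl⟩ := Finset.mem_image.1 hτ
      exact htrr θ (Finset.mem_filter.1 hθ).2
    -- the map `x ↦ ca x τ`
    have h1 : ∑ x : E with x ∈ EE E R, h (ca x τ) =
        ∑ θ ∈ X with rep θ = τ, ∑ x ∈ (Finset.univ.filter fun x : E => x ∈ EE E R) with
          ca x τ = θ, h (ca x τ) := by
      rw [← Finset.sum_fiberwise_of_maps_to
        (s := Finset.univ.filter fun x : E => x ∈ EE E R) (t := X.filter fun θ => rep θ = τ)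
        (g := fun x => ca x τ) ?_ fun x => h (ca x τ)]
      intro x hx
      have hx' := (Finset.mem_filter.1 hx).2
      refine Finset.mem_filter.2 ⟨Finset.mem_filter.2 ⟨Finset.mem_univ _, htr τ hτ2 x hx'⟩, ?_⟩
      rw [hrep' τ x hx', hτ1]
    rw [h1, Finset.mul_sum]
    refine Finset.sum_congr rfl fun θ hθ => ?_
    obtain ⟨hθX, hθτ⟩ := Finset.mem_filter.1 hθ
    obtain ⟨x₀, hx₀, hx₀'⟩ := hrep θ
    rw [hθτ] at hx₀'
    have h2 : ∑ x ∈ (Finset.univ.filter fun x : E => x ∈ EE E R) with ca x τ = θ,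
        h (ca x τ) = (Nat.card (St R τ : Subgroup E) : ℂ) * h θ := by
      rw [Finset.sum_congr rfl (g := fun _ => h θ) fun x hx => by
        rw [(Finset.mem_filter.1 hx).2]]
      rw [Finset.sum_const, nsmul_eq_mul]
      congr 2
      rw [Nat.card_eq_fintype_card, ← Finset.card_univ]
      symm
      refine Finset.card_bij (fun (k : (St R τ : Subgroup E)) _ => x₀ * (k : E)) ?_ ?_ ?_
      · intro k _
        refine Finset.mem_filter.2 ⟨Finset.mem_filter.2 ⟨Finset.mem_univ _,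
          mul_mem hx₀ k.2.1⟩, ?_⟩
        rw [ca_mul, k.2.2, hx₀']
      · intro a _ b _ hab
        exact Subtype.ext (mul_left_cancel hab)
      · intro x hx
        obtain ⟨hx1, hx2⟩ := Finset.mem_filter.1 hx
        have hx3 := (Finset.mem_filter.1 hx1).2
        refine ⟨⟨x₀⁻¹ * x, mul_mem (inv_mem hx₀) hx3, ?_⟩, Finset.mem_univ _,
          mul_inv_cancel_left _ _⟩
        rw [ca_mul, hx2, ← hx₀', ← ca_mul, inv_mul_cancel, ca_one]
    rw [h2, inv_mul_cancel_left₀ (Nat.cast_ne_zero.2 Nat.card_pos.ne')]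

end Grp

section Sys

variable {p : ℕ} {D E Ω V : Type} [CommGroup D] [Fintype D] [CommGroup E] [Fintype E]
    [MulDistribMulAction E D] [Fintype Ω] [NormedAddCommGroup V] [InnerProductSpace ℂ V]
    {B : BSys p D E Ω V} {e : Subgroup D → E → V} {R : Subgroup D}

/-- The sum of the `W_R(θ,St θ,w)` over the orbits of the characters `θ` of `D / R`. -/
noncomputable def PW (e : Subgroup D → E → V) (R : Subgroup D) (w : E →* ℂˣ) (v : D) : V :=
  ∑ s : E with s ∈ EE E (jn R v), (ev w s * ∑ θ ∈ FX R s, ev θ v) • e (jn R v) s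

theorem PW_mem (hL : Lv B e R) (w : E →* ℂˣ) : PW e R w ∈ B.Z R := by
  obtain ⟨T, hT1, hT⟩ := exists_T E R
  have h1 : PW e R w = ∑ τ ∈ T, WW e R τ (St R τ) w := by
    funext v
    rw [Finset.sum_apply]
    unfold PW WW
    have h2 : ∀ τ : D →* ℂˣ, (∑ s : E with s ∈ (St R τ : Subgroup E) ∧ s ∈ EE E (jn R v),
        (ev w s * OS E R τ v) • e (jn R v) s) = ∑ s : E with s ∈ EE E (jn R v),
          (if ca s τ = τ then ev w s * OS E R τ v else 0) • e (jn R v) s := by
      intro τ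
      rw [Finset.sum_filter, Finset.sum_filter]
      refine Finset.sum_congr rfl fun s _ => ?_
      by_cases hs : s ∈ EE E (jn R v)
      · by_cases hs' : ca s τ = τ
        · rw [if_pos ⟨⟨(mem_EE_jn.1 hs).1, hs'⟩, hs⟩, if_pos hs, if_pos hs']
        · rw [if_neg fun h => hs' h.1.2, if_pos hs, if_neg hs', zero_smul]
      · rw [if_neg fun h => hs h.2, if_neg hs]
    have h6 : ∀ τ ∈ T, ((Nat.card (St R τ : Subgroup E) : ℂ)⁻¹ •
        ∑ s : E with s ∈ (St R τ : Subgroup E) ∧ s ∈ EE E (jn R v),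
          (ev w s * OS E R τ v) • e (jn R v) s) = ∑ s : E with s ∈ EE E (jn R v),
            ((Nat.card (St R τ : Subgroup E) : ℂ)⁻¹ *
              (if ca s τ = τ then ev w s * OS E R τ v else 0)) • e (jn R v) s := by
      intro τ _
      rw [h2 τ, Finset.smul_sum]
      exact Finset.sum_congr rfl fun s _ => smul_smul _ _ _
    rw [Finset.sum_congr rfl h6, Finset.sum_comm]
    refine Finset.sum_congr rfl fun s hs => ?_
    rw [← Finset.sum_smul]
    congr 1
    have h3 := hT fun θ => if ca s θ = θ then ev θ v else 0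
    have h4 : ∑ θ ∈ FX R s, ev θ v = ∑ θ : D →* ℂˣ with (∀ z ∈ R, θ z = 1),
        (if ca s θ = θ then ev θ v else 0) := by
      rw [FX, ← Finset.filter_filter, Finset.sum_filter]
    rw [h4, h3, Finset.mul_sum]
    refine Finset.sum_congr rfl fun τ _ => ?_
    have h5 : ∀ x : E, (ca s (ca x τ) = ca x τ) ↔ ca s τ = τ := by
      intro x
      constructor
      · intro h
        have h6 := congrArg (ca x⁻¹) h
        have h7 : x⁻¹ * s * x = s := by rw [mul_comm x⁻¹ s, inv_mul_cancel_right]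
        rwa [← ca_mul, ← ca_mul, ← ca_mul, h7, inv_mul_cancel, ca_one] at h6
      · intro h
        rw [← ca_mul, mul_comm, ca_mul, h]
    by_cases hτ : ca s τ = τ
    · rw [if_pos hτ, Finset.sum_congr rfl fun x _ => if_pos ((h5 x).2 hτ)]
      unfold OS
      ring
    · rw [if_neg hτ, Finset.sum_congr rfl fun x _ => if_neg fun h => hτ ((h5 x).1 h)]
      simp
  rw [h1]
  exact AddSubgroup.sum_mem _ fun τ _ => hL.chr τ (St R τ) w le_rfl

theorem PW_off (B : BSys p D E Ω V) (w : E →* ℂˣ) {v : D} (hv : v ∉ R) : PW e R w v = 0 := by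
  unfold PW
  refine Finset.sum_eq_zero fun s hs => ?_
  obtain ⟨h1, h2⟩ := mem_EE_jn.1 (Finset.mem_filter.1 hs).2
  rw [FX_off B.hp B.hD B.hE h1 h2 hv, mul_zero, zero_smul]

theorem PW_on (w : E →* ℂˣ) {v : D} (hv : v ∈ R) : PW e R w v =
    ∑ s : E with s ∈ EE E R, (ev w s * ((FX R s).card : ℂ)) • e R s := by
  unfold PW
  rw [jn_of_mem hv]
  refine Finset.sum_congr rfl fun s hs => ?_
  rw [FX_on hv]

theorem PW_inv (B : BSys p D E Ω V) (w : E →* ℂˣ) {z : D} (hz : z ∈ R) (v : D) :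
    PW e R w (z * v) = PW e R w v := by
  by_cases hv : v ∈ R
  · rw [PW_on w hv, PW_on w (R.mul_mem hz hv)]
  · rw [PW_off B w hv, PW_off B w fun h => hv (by
      have := R.mul_mem (R.inv_mem hz) h
      rwa [inv_mul_cancel_left] at this)]

theorem ip_PW (B : BSys p D E Ω V) (h : D → V) (w : E →* ℂˣ) (hh : ∀ z ∈ R, h z = h 1) :
    ip E R h (PW e R w) = (Nat.card R : ℂ) * inner ℂ (h 1) (PW e R w 1) := by
  have hce : (ce E R : ℂ) ≠ 0 := by
    unfold ce
    exact Nat.cast_ne_zero.2 Nat.card_pos.ne'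
  unfold ip
  have h1 : ∑ v : D, ce E (jn R v) * inner ℂ (h v) (PW e R w v) =
      ∑ v : D with v ∈ R, ce E R * inner ℂ (h 1) (PW e R w 1) := by
    rw [Finset.sum_filter]
    refine Finset.sum_congr rfl fun v _ => ?_
    by_cases hv : v ∈ R
    · rw [if_pos hv, jn_of_mem hv, hh v hv, PW_on w hv, PW_on w (one_mem R)]
    · rw [if_neg hv, PW_off B w hv, inner_zero_right, mul_zero]
  rw [h1, Finset.sum_const, nsmul_eq_mul]
  have h2 : (Finset.univ.filter fun v : D => v ∈ R).card = Nat.card R := by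
    rw [Nat.card_eq_fintype_card, ← Fintype.card_subtype]
  rw [h2]
  field_simp

theorem inner_PW (hL : Lv B e R) (w w' : E →* ℂˣ) :
    (inner ℂ (PW e R w 1) (PW e R w' 1) : ℂ) = ∑ s : E with s ∈ EE E R,
      (starRingEnd ℂ) (ev w s) * ev w' s * (((FX R s).card : ℂ) ^ 2 *
        ((Nat.card (EE E R : Subgroup E) : ℂ) * (fx D s : ℂ))⁻¹) := by
  rw [PW_on w (one_mem R), PW_on w' (one_mem R), sum_inner]
  refine Finset.sum_congr rfl fun s hs => ?_
  have hs' := (Finset.mem_filter.1 hs).2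
  rw [inner_sum, Finset.sum_eq_single s]
  · rw [inner_smul_left, inner_smul_right, hL.inn s hs' s hs', if_pos rfl, map_mul,
      Complex.conj_natCast]
    ring
  · intro t ht hne
    rw [inner_smul_left, inner_smul_right, hL.inn s hs' t (Finset.mem_filter.1 ht).2,
      if_neg hne.symm]
    ring
  · intro h
    exact absurd hs h

end Sys

end Pool.Agent.KCK
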