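import Pool.Agent.KBD.Cls

/-! The stabilizer of a block of the centralizer of a defect group over a normal subgroup. -/

set_option autoImplicit false

namespace Pool.Agent.KCK

open Pool.Agent.KB Pool.Agent.KB.ContrAux Pool.Agent.KBL Pool.Agent.KBZ Pool.Agent.KBU
  Pool.Agent.KBQ Pool.Agent.KBY Pool.Agent.KBD

private theorem Tr_cov {N K H H' : Type} [Group N] [Fintype N] [Group K] [Fintype K] [Group H]
    [Fintype H] [Group H'] [Fintype H'] {κ : N →* K} (h : Nrm κ) (p : ℕ) (hp : p.Prime)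
    (𝔪 : Ideal AInt) (h𝔪 : 𝔪.IsMaximal) (hp𝔪 : (p : AInt) ∈ 𝔪) (χ : K → ℂ) (hχ : χ ∈ Irr K)
    (θ : N → ℂ) (hθ : θ ∈ Irr N) (hov : Over κ χ θ) (hst : ∀ g : K, SameBlock 𝔪 θ (tw h g θ))
    (D : Subgroup N) (hD : IsPGroup p D) (ι₀ : H →* N) (h₀ : CenOf ι₀ D) (ι' : H' →* K)
    (η : H' → ℂ) (hB : DefP p 𝔪 χ (D.map κ) ι' η) (l : H →* H')
    (hl : Nrm l) (hll : ∀ x, ι' (l x) = κ (ι₀ x)) (ζ₁ : H → ℂ) (hζ₁ : ζ₁ ∈ Irr H)
    (hov1 : Over l η ζ₁) : Ind 𝔪 ι₀ ζ₁ θ := by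
  obtain ⟨θ₂, hθ₂, hI⟩ := MajA_lift p hp 𝔪 h𝔪 hp𝔪 D hD ι₀ h₀.inj h₀.ran ζ₁ hζ₁
  have h' := hB.cen
  have hclaim : ∀ z, Inv h z → InM 𝔪 (omg θ z - omg θ₂ z) := by
    intro z hz
    have e1 := KOne_main h χ hχ θ hθ hov z hz
    have e2 := hB.ind (up κ z) (Up_ctr h z hz)
    have e3 : trc ι' (up κ z) = up l (trc ι₀ z) := by
      refine MonoidAlgebra.ext ?_
      ext w
      rw [Br_coeff]
      by_cases hw : ∃ y, κ y = ι' w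
      · obtain ⟨y, hy⟩ := hw
        have hyD : ∀ d ∈ D, d * y = y * d := by
          intro d hd
          apply h.inj
          rw [map_mul, map_mul, hy]
          exact h'.com w (Subgroup.mem_map_of_mem κ hd)
        obtain ⟨x, rfl⟩ := (h₀.ran y).2 hyD
        have hwx : w = l x := h'.inj (by rw [hll, hy])
        rw [← hy, Up_coeff κ h.inj, hwx, Up_coeff l hl.inj, Br_coeff]
      · rw [Up_off κ z (ι' w) fun a ha => hw ⟨a, ha⟩, Up_off l (trc ι₀ z) w]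
        intro x hx
        exact hw ⟨ι₀ x, by rw [← hll, hx]⟩
    have hinv : Inv hl (trc ι₀ z) := by
      intro g a
      rw [Br_coeff, Br_coeff]
      have h1 : ι₀ (hl.cg g a) = h.cg (ι' g) (ι₀ a) := by
        apply h.inj
        rw [h.cg_spec, ← hll, ← hll, hl.cg_spec, map_mul, map_mul, map_inv]
      rw [h1]
      exact hz _ _
    have e4 := KOne_main hl η hB.irr ζ₁ hζ₁ hov1 (trc ι₀ z) hinv
    have e5 := hI z (Up_ctrA h z hz)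
    rw [e1, e3, e4] at e2
    have e6 := InM_sub e2 e5
    rwa [sub_sub_sub_cancel_right] at e6
  obtain ⟨g, hg⟩ := CovA_inv h 𝔪 h𝔪 θ θ₂ hθ hθ₂ hclaim
  have hs : SameBlock 𝔪 θ θ₂ := by
    have h1 := tw_same h 𝔪 g⁻¹ hg.2
    rw [tw_inv] at h1
    exact same_trans (hst g⁻¹) h1
  exact IndA_block 𝔪 ι₀ ζ₁ ζ₁ θ₂ θ hζ₁ hθ₂ ⟨hζ₁, same_refl 𝔪 ζ₁⟩ ⟨hθ, same_symm hs⟩ hI

/-- The defect pair of a block `B` over a stable block `b` of a normal subgroup `N` of `K` of index prime to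
`p`: the stabilizer acts on the defect group `D` of `b` as elements of `ExS` of the pair of `b`, up to
conjugation with an element `n` of the normalizer of `D` in `N`. -/
theorem Tr_main {N K G H : Type} [Group N] [Fintype N] [Group K] [Fintype K] [Group G]
    [Fintype G] [Group H] [Fintype H] {κ : N →* K} (h : Nrm κ) {ι : N →* G}
    (j : K →* G) (hj : Function.Injective j) (hjκ : ∀ x, j (κ x) = ι x) (p : ℕ) (hp : p.Prime)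
    (𝔪 : Ideal AInt) (h𝔪 : 𝔪.IsMaximal) (hp𝔪 : (p : AInt) ∈ 𝔪) (χ : K → ℂ) (hχ : χ ∈ Irr K)
    (θ : N → ℂ) (hθ : θ ∈ Irr N) (hov : Over κ χ θ) (hst : ∀ g : K, SameBlock 𝔪 θ (tw h g θ))
    (hidx : ¬ p ∣ κ.range.index) (D : Subgroup N) (ι₀ : H →* N) (ζ : H → ℂ)
    (hA : DefP p 𝔪 θ D ι₀ ζ) :
    ∃ (H' : Type) (_ : Group H') (_ : Fintype H') (ι' : H' →* K) (η : H' → ℂ)
      (hB : DefP p 𝔪 χ (D.map κ) ι' η) (n : N), (∀ x, x ∈ D ↔ n * x * n⁻¹ ∈ D) ∧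
      ∀ k ∈ Stb 𝔪 hB.cen η, ∃ g ∈ ExS 𝔪 ι D ι₀ ζ, ∀ x ∈ D,
        j (k * κ (n * x * n⁻¹) * k⁻¹) = ι n * (g * ι x * g⁻¹) * (ι n)⁻¹ := by
  classical
  obtain ⟨H', i1, i2, ι', η, hB⟩ := Cls_main h p hp 𝔪 h𝔪 hp𝔪 χ hχ θ hθ hov hst hidx D ι₀ ζ hA
  obtain ⟨l, hll, hl⟩ := UCov_nrm h D ι₀ hA.cen ι' hB.cen
  obtain ⟨ζ₁, hζ₁, hov1⟩ := ClA_ex l hl.inj η hB.irr
  have hI := Tr_cov h p hp 𝔪 h𝔪 hp𝔪 χ hχ θ hθ hov hst D hA.pg ι₀ hA.cen ι' η hB l hl hll ζ₁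
    hζ₁ hov1
  obtain ⟨n, hn1, hn2⟩ := Pcj_same p hp 𝔪 h𝔪 hp𝔪 θ hθ D hA.pg hA.card ι₀ hA.cen ζ ζ₁ hA.irr hζ₁
    hA.ind hI
  refine ⟨H', i1, i2, ι', η, hB, n, hn1, ?_⟩
  have hιn : ∀ y : N, ι (n * y * n⁻¹) = ι n * ι y * (ι n)⁻¹ := fun y => by
    rw [map_mul, map_mul, map_inv]
  intro k hk
  obtain ⟨c, hc⟩ := UFra_main h 𝔪 h𝔪 D ι₀ hA.cen ι' hB.cen η hB.irr l hl hll ζ₁ hζ₁ hov1 k hk
  -- `k' = ι' c * k`
  obtain ⟨k', hk'⟩ : ∃ k' : K, k' = ι' c * k := ⟨_, rfl⟩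
  rw [← hk'] at hc
  obtain ⟨f, hf⟩ : ∃ f : K →* G, ∀ k, f k = (ι n)⁻¹ * j k * ι n :=
    ⟨(MulAut.conj (ι n)⁻¹).toMonoidHom.comp j, fun k => by simp⟩
  -- the action on `D.map ι`
  have hA1 : ∀ k : K, (∀ x : K, x ∈ D.map κ → k * x * k⁻¹ ∈ D.map κ) →
      ∀ x ∈ D.map ι, f k * x * (f k)⁻¹ ∈ D.map ι := by
    rintro k hk _ ⟨d, hd, rfl⟩
    obtain ⟨d', hd', hd''⟩ := hk (κ (n * d * n⁻¹)) (Subgroup.mem_map_of_mem κ ((hn1 d).1 hd))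
    have h1 : n⁻¹ * d' * n ∈ D := by
      rw [hn1]
      have : n * (n⁻¹ * d' * n) * n⁻¹ = d' := by group
      rw [this]
      exact hd'
    refine ⟨n⁻¹ * d' * n, h1, ?_⟩
    have h2 : ι d' = j k * (ι n * ι d * (ι n)⁻¹) * (j k)⁻¹ := by
      rw [← hjκ, hd'', map_mul, map_mul, map_inv, hjκ, hιn]
    rw [map_mul, map_mul, map_inv, h2, hf]
    group
  have hA2 : ∀ k : K, (∀ x : K, x ∈ D.map κ ↔ k * x * k⁻¹ ∈ D.map κ) →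
      ∀ x : G, x ∈ D.map ι ↔ f k * x * (f k)⁻¹ ∈ D.map ι := by
    intro k hk x
    constructor
    · exact hA1 k (fun x hx => (hk x).1 hx) x
    · intro hx
      have h1 := hA1 k⁻¹ (fun y hy => by
        rw [hk]
        have : k * (k⁻¹ * y * k⁻¹⁻¹) * k⁻¹ = y := by group
        rwa [this]) _ hx
      have h2 : f k⁻¹ * (f k * x * (f k)⁻¹) * (f k⁻¹)⁻¹ = x := by
        rw [map_inv]
        group
      rwa [h2] at h1
  refine ⟨f k', ⟨hA2 k' hc.1, ?_⟩, ?_⟩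
  · intro x₁ x₂ hx
    obtain ⟨y₁, hy₁⟩ := hA.cen.nrm hn1 x₁
    obtain ⟨y₂, hy₂⟩ := hA.cen.nrm hn1 x₂
    have h1 : k' * (κ.comp ι₀) y₁ * k'⁻¹ = (κ.comp ι₀) y₂ := by
      apply hj
      rw [MonoidHom.comp_apply, MonoidHom.comp_apply, map_mul, map_mul, map_inv, hjκ, hjκ, hy₁, hy₂,
        hιn, hιn]
      rw [MonoidHom.comp_apply, MonoidHom.comp_apply, hf] at hx
      rw [← hx]
      group
    have h2 := hc.2 y₁ y₂ h1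
    have h3 := hn2 x₁ y₁ hy₁.symm
    have h4 := hn2 x₂ y₂ hy₂.symm
    have h5 := InM_sub (InM_add h3 h2) h4
    have h6 : omega ζ x₁ - omega ζ₁ y₁ + (omega ζ₁ y₁ - omega ζ₁ y₂) - (omega ζ x₂ - omega ζ₁ y₂) =
        omega ζ x₁ - omega ζ x₂ := by ring
    rwa [h6] at h5
  · intro x hx
    have hx' : κ (n * x * n⁻¹) ∈ D.map κ := Subgroup.mem_map_of_mem κ ((hn1 x).1 hx)
    have h1 : k * κ (n * x * n⁻¹) * k⁻¹ ∈ D.map κ :=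
      (((Stb_mem 𝔪 hB.cen η k).1 hk).1 _).1 hx'
    have h2 := hB.cen.com c h1
    have h3 : k' * κ (n * x * n⁻¹) * k'⁻¹ = k * κ (n * x * n⁻¹) * k⁻¹ := by
      rw [hk', mul_inv_rev]
      calc ι' c * k * κ (n * x * n⁻¹) * (k⁻¹ * (ι' c)⁻¹)
          = ι' c * (k * κ (n * x * n⁻¹) * k⁻¹) * (ι' c)⁻¹ := by group
        _ = k * κ (n * x * n⁻¹) * k⁻¹ := by rw [← h2, mul_inv_cancel_right]
    rw [← h3, hf, map_mul, map_mul, map_inv, hjκ, hιn]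
    group

end Pool.Agent.KCK
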